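import Mathlib

set_option autoImplicit false

namespace Pool.Agent.H663Z.Exch

theorem trace_eq_rank {K n : Type} [Field K] [Fintype n] [DecidableEq n] {P : Matrix n n K}
    (hP : P * P = P) : P.trace = (P.rank : K) := by
  have h1 : IsIdempotentElem (Matrix.toLin' P) := by
    change Matrix.toLin' P ∘ₗ Matrix.toLin' P = Matrix.toLin' P
    rw [← Matrix.toLin'_mul, hP]
  have h2 := (LinearMap.IsIdempotentElem.isProj_range _ h1).trace
  rw [Matrix.trace_toLin'_eq] at h2
  rw [h2, Matrix.rank]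
  rfl

/-- Data exhibiting a ring as semiperfect with residue ring inside a product of matrix rings. -/
structure Data (R : Type) [Ring R] (K : Type) [Field K] (J : Type) (I : J → Type)
    [∀ j, Fintype (I j)] [∀ j, DecidableEq (I j)] where
  π : ∀ j, R →+* Matrix (I j) (I j) K
  v : ∀ j, I j
  ε : J → R
  ε_idem : ∀ j, ε j * ε j = ε j
  π_self : ∀ j, π j (ε j) = Matrix.single (v j) (v j) 1
  π_ne : ∀ j j', j' ≠ j → π j' (ε j) = 0
  span_col : ∀ j (w : I j → K), (∀ r, ∑ b, w b * π j r b (v j) = 0) → w = 0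
  span_row : ∀ j (w : I j → K), (∀ r, ∑ b, π j r (v j) b * w b = 0) → w = 0
  loc : ∀ r, (∀ j, IsUnit (π j r)) → IsUnit r

namespace Data

variable {R : Type} [Ring R] {K : Type} [Field K] {J : Type} {I : J → Type}
  [∀ j, Fintype (I j)] [∀ j, DecidableEq (I j)] (D : Data R K J I)

theorem corner_unit (j : J) (a : R) (h1 : D.ε j * a = a) (h2 : a * D.ε j = a)
    (h : D.π j a (D.v j) (D.v j) ≠ 0) : IsUnit (a + (1 - D.ε j)) := by
  apply D.loc
  intro j'
  by_cases hj : j' = j
  · subst hj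
    set l := D.π j' a (D.v j') (D.v j') with hl
    have ha : D.π j' a = Matrix.single (D.v j') (D.v j') l := by
      have : D.π j' a = D.π j' (D.ε j') * D.π j' a * D.π j' (D.ε j') := by
        rw [← map_mul, ← map_mul, h1, h2]
      rw [this, D.π_self, Matrix.single_mul_mul_single]
      simp [hl]
    rw [map_add, map_sub, map_one, ha, D.π_self]
    have key : ∀ s t : K, s * t = 1 →
        (Matrix.single (D.v j') (D.v j') s + (1 - Matrix.single (D.v j') (D.v j') (1 : K))) *
        (Matrix.single (D.v j') (D.v j') t + (1 - Matrix.single (D.v j') (D.v j') (1 : K))) = 1 := by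
      intro s t hst
      simp only [mul_add, add_mul, mul_sub, sub_mul, Matrix.mul_one, Matrix.one_mul,
        Matrix.single_mul_single_same, hst, mul_one, one_mul]
      abel
    exact ⟨⟨_, _, key l l⁻¹ (mul_inv_cancel₀ h), key l⁻¹ l (inv_mul_cancel₀ h)⟩, rfl⟩
  · have : D.π j' a = 0 := by rw [← h1, map_mul, D.π_ne j j' hj, zero_mul]
    rw [map_add, map_sub, map_one, this, D.π_ne j j' hj]
    simp

/-- In the corner of `ε j`, an element with nonzero residue has an inverse. -/
theorem corner_inv (j : J) (a : R) (h1 : D.ε j * a = a) (h2 : a * D.ε j = a)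
    (h : D.π j a (D.v j) (D.v j) ≠ 0) :
    ∃ b, a * b = D.ε j ∧ b * a = D.ε j ∧ D.ε j * b = b ∧ b * D.ε j = b := by
  obtain ⟨c, hc⟩ := D.corner_unit j a h1 h2 h
  have e1 : D.ε j * c = a := by rw [hc, mul_add, mul_sub, h1, mul_one, D.ε_idem]; abel
  have e2 : c * D.ε j = a := by rw [hc, add_mul, sub_mul, h2, one_mul, D.ε_idem]; abel
  have e3 : D.ε j * (c⁻¹ : Rˣ) = (c⁻¹ : Rˣ) * D.ε j := by
    calc D.ε j * (c⁻¹ : Rˣ) = (c⁻¹ : Rˣ) * (c * D.ε j) * (c⁻¹ : Rˣ) := by
          rw [← mul_assoc, Units.inv_mul, one_mul]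
      _ = (c⁻¹ : Rˣ) * (D.ε j * c) * (c⁻¹ : Rˣ) := by rw [e1, e2]
      _ = (c⁻¹ : Rˣ) * D.ε j := by
          rw [mul_assoc, mul_assoc, Units.mul_inv, mul_one]
  refine ⟨D.ε j * (c⁻¹ : Rˣ), ?_, ?_, ?_, ?_⟩
  · rw [← mul_assoc, h2, ← e1, mul_assoc, Units.mul_inv, mul_one]
  · rw [e3, mul_assoc, h1, ← e2, ← mul_assoc, Units.inv_mul, one_mul]
  · rw [← mul_assoc, D.ε_idem]
  · rw [e3, mul_assoc, D.ε_idem]

theorem peel (j : J) (p : R) (hp : p * p = p) (h : D.π j p ≠ 0) :
    ∃ x y, x * y = D.ε j ∧ D.ε j * x = x ∧ y * D.ε j = y ∧ x * p = x ∧ p * y = y := by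
  obtain ⟨a, ha⟩ : ∃ a, D.π j p a ≠ 0 := by
    by_contra hc
    push Not at hc
    exact h (by ext a b; rw [hc a]; rfl)
  obtain ⟨r', hr'⟩ : ∃ r', ∑ b, D.π j p a b * D.π j r' b (D.v j) ≠ 0 := by
    by_contra hc
    push Not at hc
    exact ha (D.span_col j _ hc)
  obtain ⟨r, hr⟩ : ∃ r, ∑ b, D.π j r (D.v j) b * D.π j (p * r') b (D.v j) ≠ 0 := by
    by_contra hc
    push Not at hc
    have := congrFun (D.span_row j (fun b => D.π j (p * r') b (D.v j)) hc) a
    rw [map_mul, Matrix.mul_apply] at this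
    exact hr' this
  have hne : D.π j (D.ε j * (r * (p * r')) * D.ε j) (D.v j) (D.v j) ≠ 0 := by
    rw [map_mul, map_mul, D.π_self, Matrix.single_mul_mul_single, map_mul]
    simpa [Matrix.mul_apply] using hr
  obtain ⟨b, hb1, -, hb3, hb4⟩ := D.corner_inv j _
    (by rw [← mul_assoc, ← mul_assoc, D.ε_idem]) (by rw [mul_assoc, D.ε_idem]) hne
  refine ⟨D.ε j * r * p, p * r' * b, ?_, ?_, ?_, ?_, ?_⟩
  · calc D.ε j * r * p * (p * r' * b) = D.ε j * r * (p * p) * r' * (D.ε j * b) := by
          rw [hb3]; simp only [mul_assoc]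
      _ = D.ε j * (r * (p * r')) * D.ε j * b := by rw [hp]; simp only [mul_assoc]
      _ = D.ε j := hb1
  · rw [← mul_assoc, ← mul_assoc, D.ε_idem]
  · rw [mul_assoc, hb4]
  · rw [mul_assoc, hp]
  · rw [← mul_assoc, ← mul_assoc, hp]

/-- The rank of the residue at `j`. -/
noncomputable def rk (j : J) (p : R) : ℕ := (D.π j p).rank

theorem rk_cast (j : J) {p : R} (hp : p * p = p) : (D.rk j p : K) = (D.π j p).trace :=
  (trace_eq_rank (by rw [← map_mul, hp])).symm

theorem eq_zero_of_rk {p : R} (hp : p * p = p) (h : ∀ j, D.π j p = 0) : p = 0 := by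
  have : IsUnit (1 - p) := D.loc _ fun j => by rw [map_sub, map_one, h j]; simp
  obtain ⟨c, hc⟩ := this
  have h2 : p * c = 0 := by rw [hc, mul_sub, mul_one, hp, sub_self]
  calc p = p * c * (c⁻¹ : Rˣ) := by rw [mul_assoc, Units.mul_inv, mul_one]
    _ = 0 := by rw [h2, zero_mul]

theorem sub_idem {p x y e : R} (hp : p * p = p) (h1 : x * y = e) (h2 : e * x = x)
    (h4 : x * p = x) (h5 : p * y = y) : (p - y * x) * (p - y * x) = p - y * x := by
  have a1 : p * (y * x) = y * x := by rw [← mul_assoc, h5]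
  have a2 : y * x * p = y * x := by rw [mul_assoc, h4]
  have a3 : y * x * (y * x) = y * x := by
    rw [mul_assoc, ← mul_assoc x, h1, h2]
  rw [mul_sub, sub_mul, sub_mul, hp, a1, a2, a3]
  abel

theorem rk_peel [CharZero K] [DecidableEq J] {j : J} {p x y : R} (hp : p * p = p)
    (h1 : x * y = D.ε j) (h2 : D.ε j * x = x) (h4 : x * p = x) (h5 : p * y = y) (j' : J) :
    D.rk j' p = D.rk j' (p - y * x) + if j' = j then 1 else 0 := by
  apply Nat.cast_injective (R := K)
  rw [Nat.cast_add, D.rk_cast j' hp, D.rk_cast j' (sub_idem hp h1 h2 h4 h5), map_sub,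
    Matrix.trace_sub, map_mul, Matrix.trace_mul_comm, ← map_mul, h1]
  by_cases hj : j' = j
  · subst hj
    rw [D.π_self]
    simp
  · rw [D.π_ne j j' hj]
    simp [hj]

theorem rk_eq_zero {j : J} {p : R} (h : D.π j p = 0) : D.rk j p = 0 := by
  rw [rk, h, Matrix.rank_zero]

theorem π_eq_zero_of_rk {j : J} {p : R} (h : D.rk j p = 0) : D.π j p = 0 := by
  have h' : (D.π j p).rank = 0 := h
  rw [Matrix.rank, Submodule.finrank_eq_zero, LinearMap.range_eq_bot] at h'
  apply Matrix.toLin'.injective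
  rw [map_zero]
  exact h'

/-- Induction over idempotents by splitting off a copy of some `ε j`. -/
theorem induct [CharZero K] [Fintype J] (P : R → Prop) (h0 : P 0)
    (hs : ∀ (j : J) (p x y : R), p * p = p → x * y = D.ε j → D.ε j * x = x → y * D.ε j = y →
      x * p = x → p * y = y → P (p - y * x) → P p) :
    ∀ p, p * p = p → P p := by
  classical
  suffices H : ∀ n p, p * p = p → ∑ j, D.rk j p = n → P p from fun p hp => H _ p hp rfl
  intro n
  induction n with
  | zero =>
    intro p hp hn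
    have : p = 0 := D.eq_zero_of_rk hp fun j =>
      D.π_eq_zero_of_rk (Finset.sum_eq_zero_iff.1 hn j (Finset.mem_univ j))
    rw [this]; exact h0
  | succ n ih =>
    intro p hp hn
    obtain ⟨j, hj⟩ : ∃ j, D.π j p ≠ 0 := by
      by_contra hc
      push Not at hc
      rw [Finset.sum_eq_zero fun j _ => D.rk_eq_zero (hc j)] at hn
      omega
    obtain ⟨x, y, h1, h2, h3, h4, h5⟩ := D.peel j p hp hj
    refine hs j p x y hp h1 h2 h3 h4 h5 (ih _ (sub_idem hp h1 h2 h4 h5) ?_)
    rw [Finset.sum_congr rfl fun j' _ => D.rk_peel hp h1 h2 h4 h5 j', Finset.sum_add_distrib] at hn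
    simp only [Finset.sum_ite_eq', Finset.mem_univ, if_true] at hn
    omega

theorem equiv_of_rk [CharZero K] [Fintype J] (p : R) (hp : p * p = p) :
    ∀ q, q * q = q → (∀ j, D.rk j p = D.rk j q) → ∃ X Y, p = X * Y ∧ q = Y * X := by
  classical
  refine D.induct (fun p => ∀ q, q * q = q → (∀ j, D.rk j p = D.rk j q) →
    ∃ X Y, p = X * Y ∧ q = Y * X) ?_ ?_ p hp
  · intro q hq h
    have : q = 0 := D.eq_zero_of_rk hq fun j =>
      D.π_eq_zero_of_rk (by rw [← h j]; exact D.rk_eq_zero (map_zero _))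
    exact ⟨0, 0, by simp, by simp [this]⟩
  · intro j p x y hp h1 h2 h3 h4 h5 ih q hq h
    have hj : D.π j q ≠ 0 := by
      intro hc
      have := D.rk_peel hp h1 h2 h4 h5 j
      rw [h j, D.rk_eq_zero hc] at this
      simp at this
    obtain ⟨x', y', k1, k2, k3, k4, k5⟩ := D.peel j q hq hj
    have hp'' := sub_idem hp h1 h2 h4 h5
    have hq'' := sub_idem hq k1 k2 k4 k5
    obtain ⟨X, Y, hX, hY⟩ := ih (q - y' * x') hq'' (fun j' => by
      have e1 := D.rk_peel hp h1 h2 h4 h5 j'
      have e2 := D.rk_peel hq k1 k2 k4 k5 j'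
      have := h j'
      omega)
    set p'' := p - y * x with hp''def
    set q'' := q - y' * x' with hq''def
    have b1 : x' * q'' = 0 := by
      rw [hq''def, mul_sub, k4, ← mul_assoc, k1, k2, sub_self]
    have b2 : q'' * y' = 0 := by
      rw [hq''def, sub_mul, k5, mul_assoc, k1, k3, sub_self]
    have b3 : x * p'' = 0 := by
      rw [hp''def, mul_sub, h4, ← mul_assoc, h1, h2, sub_self]
    have b4 : p'' * y = 0 := by
      rw [hp''def, sub_mul, h5, mul_assoc, h1, h3, sub_self]
    have c1 : X * q'' = p'' * X := by rw [hX, hY, mul_assoc]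
    have c2 : q'' * Y = Y * p'' := by rw [hX, hY, mul_assoc]
    refine ⟨y * x' + X * q'', y' * x + q'' * Y, ?_, ?_⟩
    · have t1 : y * x' * (y' * x) = y * x := by
        rw [mul_assoc, ← mul_assoc x', k1, h2]
      have t2 : y * x' * (q'' * Y) = 0 := by
        rw [mul_assoc, ← mul_assoc x', b1, zero_mul, mul_zero]
      have t3 : X * q'' * (y' * x) = 0 := by
        rw [mul_assoc, ← mul_assoc q'', b2, zero_mul, mul_zero]
      have t4 : X * q'' * (q'' * Y) = p'' := by
        rw [mul_assoc, ← mul_assoc q'', hq'', c2, ← mul_assoc, ← hX, hp'']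
      rw [add_mul, mul_add, mul_add, t1, t2, t3, t4, hp''def]
      abel
    · have t1 : y' * x * (y * x') = y' * x' := by
        rw [mul_assoc, ← mul_assoc x, h1, k2]
      have t2 : y' * x * (X * q'') = 0 := by
        rw [c1, mul_assoc, ← mul_assoc x, b3, zero_mul, mul_zero]
      have t3 : q'' * Y * (y * x') = 0 := by
        rw [c2, mul_assoc, ← mul_assoc p'', b4, zero_mul, mul_zero]
      have t4 : q'' * Y * (X * q'') = q'' := by
        rw [mul_assoc, ← mul_assoc Y, ← hY, hq'', hq'']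
      rw [add_mul, mul_add, mul_add, t1, t2, t3, t4, hq''def]
      abel

theorem unit_one_add {z : R} (hz : z * z = 0) : IsUnit (1 + z) :=
  ⟨⟨1 + z, 1 - z, by rw [mul_sub, mul_one, add_mul, one_mul, hz]; abel,
    by rw [sub_mul, one_mul, mul_add, mul_one, hz]; abel⟩, rfl⟩

include D in
theorem clean_corner [CharZero K] [Fintype J] (p : R) (hp : p * p = p) :
    ∀ a, p * a = a → a * p = a →
      ∃ e, e * e = e ∧ p * e = e ∧ e * p = e ∧ IsUnit (a - e + (1 - p)) := by
  refine D.induct (fun p => ∀ a, p * a = a → a * p = a →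
      ∃ e, e * e = e ∧ p * e = e ∧ e * p = e ∧ IsUnit (a - e + (1 - p))) ?_ ?_ p hp
  · intro a h _
    refine ⟨0, by simp, by simp, by simp, ?_⟩
    rw [← h]; simp
  · intro j p x y hp h1 h2 h3 h4 h5 ih a ha1 ha2
    have hp'' := sub_idem hp h1 h2 h4 h5
    set p'' := p - y * x with hp''def
    clear_value p''
    set p' := y * x with hp'def
    clear_value p'
    have hsum : p = p' + p'' := by rw [hp''def]; abel
    have b3 : x * p'' = 0 := by
      rw [hp''def, mul_sub, h4, hp'def, ← mul_assoc, h1, h2, sub_self]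
    have b4 : p'' * y = 0 := by
      rw [hp''def, sub_mul, h5, hp'def, mul_assoc, h1, h3, sub_self]
    have o1 : p' * p'' = 0 := by rw [hp'def, mul_assoc, b3, mul_zero]
    have o2 : p'' * p' = 0 := by rw [hp'def, ← mul_assoc, b4, zero_mul]
    have hp' : p' * p' = p' := by rw [hp'def, mul_assoc, ← mul_assoc x, h1, h2]
    -- the corner of `p'`
    obtain ⟨e1, w1, he1, he1l, he1r, hw1, hw1', hwl, hwr⟩ : ∃ e1 w1, e1 * e1 = e1 ∧ p' * e1 = e1 ∧
        e1 * p' = e1 ∧ (p' * a * p' - e1) * w1 = p' ∧ w1 * (p' * a * p' - e1) = p' ∧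
        p' * w1 = w1 ∧ w1 * p' = w1 := by
      have hbl : D.ε j * (x * a * y) = x * a * y := by rw [← mul_assoc, ← mul_assoc, h2]
      have hbr : x * a * y * D.ε j = x * a * y := by rw [mul_assoc, h3]
      have gen : ∀ b b' : R, b * b' = D.ε j → b' * b = D.ε j → D.ε j * b' = b' →
          b' * D.ε j = b' → (y * b * x) * (y * b' * x) = p' ∧ (y * b' * x) * (y * b * x) = p' ∧
            p' * (y * b' * x) = y * b' * x ∧ (y * b' * x) * p' = y * b' * x := by
        intro b b' g1 g2 g3 g4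
        refine ⟨?_, ?_, ?_, ?_⟩
        · calc y * b * x * (y * b' * x) = y * (b * ((x * y) * b')) * x := by simp only [mul_assoc]
            _ = p' := by rw [h1, g3, g1, h3, hp'def]
        · calc y * b' * x * (y * b * x) = y * ((b' * (x * y)) * b) * x := by simp only [mul_assoc]
            _ = p' := by rw [h1, g4, g2, h3, hp'def]
        · calc p' * (y * b' * x) = y * (x * y) * b' * x := by rw [hp'def]; simp only [mul_assoc]
            _ = _ := by rw [h1, h3]
        · calc y * b' * x * p' = y * b' * ((x * y) * x) := by rw [hp'def]; simp only [mul_assoc]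
            _ = _ := by rw [h1, h2]
      have hyx : y * (x * a * y) * x = p' * a * p' := by rw [hp'def]; simp only [mul_assoc]
      by_cases hl : D.π j (x * a * y) (D.v j) (D.v j) = 0
      · obtain ⟨b', g1, g2, g3, g4⟩ := D.corner_inv j (x * a * y - D.ε j)
          (by rw [mul_sub, hbl, D.ε_idem]) (by rw [sub_mul, hbr, D.ε_idem])
          (by rw [map_sub, Matrix.sub_apply, hl, D.π_self]; simp)
        obtain ⟨f1, f2, f3, f4⟩ := gen _ _ g1 g2 g3 g4
        have : y * (x * a * y - D.ε j) * x = p' * a * p' - p' := by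
          rw [mul_sub, sub_mul, hyx, h3, ← hp'def]
        rw [this] at f1 f2
        exact ⟨p', _, hp', hp', hp', f1, f2, f3, f4⟩
      · obtain ⟨b', g1, g2, g3, g4⟩ := D.corner_inv j (x * a * y) hbl hbr hl
        obtain ⟨f1, f2, f3, f4⟩ := gen _ _ g1 g2 g3 g4
        rw [hyx] at f1 f2
        exact ⟨0, _, by simp, by simp, by simp, by rw [sub_zero]; exact f1,
          by rw [sub_zero]; exact f2, f3, f4⟩
    set β := p' * a * p'' with hβ
    set γ := p'' * a * p' with hγ
    set v1 := p' * a * p' - e1 with hv1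
    clear_value β γ v1
    have βl : p' * β = β := by rw [hβ, ← mul_assoc, ← mul_assoc, hp']
    have βr : β * p'' = β := by rw [hβ, mul_assoc, hp'']
    have γl : p'' * γ = γ := by rw [hγ, ← mul_assoc, ← mul_assoc, hp'']
    have γr : γ * p' = γ := by rw [hγ, mul_assoc, hp']
    have v1l : p' * v1 = v1 := by rw [hv1, mul_sub, he1l, ← mul_assoc, ← mul_assoc, hp']
    have v1r : v1 * p' = v1 := by rw [hv1, sub_mul, he1r, mul_assoc, hp']
    obtain ⟨e2, he2, he2l, he2r, hu2⟩ := ih (p'' * a * p'' - γ * w1 * β)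
      (by rw [mul_sub, ← mul_assoc, ← mul_assoc, hp'', ← mul_assoc, ← mul_assoc, γl])
      (by rw [sub_mul, mul_assoc (p'' * a), hp'', mul_assoc (γ * w1), βr])
    set v2 := p'' * a * p'' - γ * w1 * β - e2 with hv2
    clear_value v2
    have v2l : p'' * v2 = v2 := by
      rw [hv2, mul_sub, mul_sub, he2l, ← mul_assoc, ← mul_assoc, hp'', ← mul_assoc, ← mul_assoc, γl]
    have v2r : v2 * p'' = v2 := by
      rw [hv2, sub_mul, sub_mul, he2r, mul_assoc (p'' * a), hp'', mul_assoc (γ * w1), βr]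
    have orth : ∀ s t : R, s * p' = s → p'' * t = t → s * t = 0 := fun s t hs ht => by
      rw [← hs, ← ht, mul_assoc, ← mul_assoc p', o1, zero_mul, mul_zero]
    have orth' : ∀ s t : R, s * p'' = s → p' * t = t → s * t = 0 := fun s t hs ht => by
      rw [← hs, ← ht, mul_assoc, ← mul_assoc p'', o2, zero_mul, mul_zero]
    have hu1 : IsUnit (v1 + (1 - p')) :=
      ⟨⟨v1 + (1 - p'), w1 + (1 - p'), by
          simp only [add_mul, mul_add, mul_sub, sub_mul, mul_one, one_mul, hw1, v1r, hwl, hp']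
          abel, by
          simp only [add_mul, mul_add, mul_sub, sub_mul, mul_one, one_mul, hw1', v1l, hwr, hp']
          abel⟩, rfl⟩
    refine ⟨e1 + e2, ?_, ?_, ?_, ?_⟩
    · rw [add_mul, mul_add, mul_add, he1, he2, orth e1 e2 he1r he2l, orth' e2 e1 he2r he1l]; abel
    · rw [hsum, add_mul, mul_add, mul_add, he1l, he2l, orth p' e2 hp' he2l, orth' p'' e1 hp'' he1l]
      abel
    · rw [hsum, add_mul, mul_add, mul_add, he1r, he2r, orth e1 p'' he1r hp'', orth' e2 p' he2r hp']
      abel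
    · have hprod : (v1 + (1 - p')) * (v2 + (1 - p'')) = v1 + v2 + (1 - p) := by
        rw [add_mul, mul_add, mul_add, orth v1 v2 v1r v2l, mul_sub, mul_one, orth v1 p'' v1r hp'',
          sub_mul, one_mul, orth p' v2 hp' v2l, mul_sub, mul_one, sub_mul, one_mul, o1, hsum]
        abel
      have ha : a = p' * a * p' + β + γ + p'' * a * p'' := by
        calc a = p * a * p := by rw [ha1, ha2]
          _ = _ := by rw [hsum, hβ, hγ]; noncomm_ring
      have pw : p * w1 = w1 := by rw [hsum, add_mul, hwl, orth' p'' w1 hp'' hwl, add_zero]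
      have wp : w1 * p = w1 := by rw [hsum, mul_add, hwr, orth w1 p'' hwr hp'', add_zero]
      have hfac : (1 + γ * w1) * (v1 + v2 + (1 - p)) * (1 + w1 * β) = a - (e1 + e2) + (1 - p) := by
        have s1 : (1 + γ * w1) * (v1 + v2 + (1 - p)) = v1 + v2 + (1 - p) + γ := by
          have s0 : w1 * (v1 + v2 + (1 - p)) = p' := by
            rw [mul_add, mul_add, hw1', orth w1 v2 hwr v2l, mul_sub,
              mul_one, wp, sub_self, add_zero, add_zero]
          rw [add_mul, one_mul, mul_assoc, s0, γr]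
        have s2 : (v1 + v2 + (1 - p) + γ) * (w1 * β) = β + γ * w1 * β := by
          have s3 : (v1 + v2 + (1 - p) + γ) * w1 = p' + γ * w1 := by
            rw [add_mul, add_mul, add_mul, hw1, orth' v2 w1 v2r hwl, sub_mul, one_mul,
              pw, sub_self, add_zero, add_zero]
          rw [← mul_assoc, s3, add_mul, βl]
        rw [s1, mul_add, mul_one, s2]
        conv_rhs => rw [ha]
        rw [hv1, hv2]
        abel
      rw [← hfac, ← hprod]
      refine ((unit_one_add ?_).mul (hu1.mul hu2)).mul (unit_one_add ?_)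
      · rw [mul_assoc, ← mul_assoc w1, orth w1 γ hwr γl, zero_mul, mul_zero]
      · rw [mul_assoc, ← mul_assoc β, orth' β w1 βr hwl, zero_mul, mul_zero]

include D in
theorem exchange [CharZero K] [Fintype J] (x : R) :
    ∃ e r s : R, e * e = e ∧ e = x * r ∧ e = x + s - x * s := by
  obtain ⟨e, he, -, -, c, hc⟩ := D.clean_corner 1 (one_mul 1) x (one_mul x) (mul_one x)
  have hx : x = e + c := by rw [hc]; abel
  have h1 : x * (1 - e) = c * (1 - e) := by
    rw [hx, add_mul, mul_sub, mul_one, he, sub_self, zero_add]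
  have h2 : (1 - x) * e = -(c * e) := by
    rw [hx, sub_mul, one_mul, add_mul, he]; abel
  refine ⟨c * (1 - e) * (c⁻¹ : Rˣ), (1 - e) * (c⁻¹ : Rˣ), 1 + e * (c⁻¹ : Rˣ), ?_, ?_, ?_⟩
  · have : (1 - e) * (1 - e) = 1 - e := by
      rw [mul_sub, sub_mul, sub_mul, one_mul, mul_one, one_mul, he]; abel
    calc c * (1 - e) * (c⁻¹ : Rˣ) * (c * (1 - e) * (c⁻¹ : Rˣ))
        = c * (1 - e) * ((c⁻¹ : Rˣ) * c) * (1 - e) * (c⁻¹ : Rˣ) := by simp only [mul_assoc]
      _ = c * ((1 - e) * (1 - e)) * (c⁻¹ : Rˣ) := by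
          rw [Units.inv_mul, mul_one]; simp only [mul_assoc]
      _ = _ := by rw [this]
  · rw [← mul_assoc, h1]
  · have h3 : x + (1 + e * (c⁻¹ : Rˣ)) - x * (1 + e * (c⁻¹ : Rˣ))
        = 1 + (1 - x) * e * (c⁻¹ : Rˣ) := by noncomm_ring
    rw [h3, h2, mul_sub, mul_one, sub_mul, Units.mul_inv, neg_mul]
    abel

end Data

end Pool.Agent.H663Z.Exch
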