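import Mathlib

set_option autoImplicit false

open CategoryTheory

namespace Pool.Agent.H663Z.Exch

/-! ### The category `S` of simplicial monoids with order-unit and normalized embeddings -/

/-- A simplicial monoid (a commutative monoid isomorphic to `ℕ ^ n`) with a distinguished
order-unit `u`. -/
structure SObj : Type 1 where
  M : Type
  [inst : AddCommMonoid M]
  simplicial : ∃ n : ℕ, Nonempty (M ≃+ (Fin n → ℕ))
  u : M
  orderUnit : ∀ x : M, ∃ (y : M) (n : ℕ), x + y = n • u

attribute [instance] SObj.inst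

/-- A normalized monoid embedding. -/
@[ext]
structure SHom (A B : SObj) : Type where
  toHom : A.M →+ B.M
  inj : Function.Injective toHom
  map_u : toHom A.u = B.u

instance SObj.category : Category SObj where
  Hom := SHom
  id A := ⟨AddMonoidHom.id A.M, Function.injective_id, rfl⟩
  comp f g := ⟨g.toHom.comp f.toHom, g.inj.comp f.inj, by
    rw [AddMonoidHom.comp_apply, f.map_u, g.map_u]⟩

/-- The inclusion functor of `S` into commutative monoids. -/
def incl : SObj ⥤ AddCommMonCat.{0} where
  obj A := AddCommMonCat.of A.M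
  map f := AddCommMonCat.ofHom f.toHom

/-! ### The category of exchange rings -/

/-- Exchange rings, not necessarily unital: for every `x` there are an idempotent `e` and
elements `r`, `s` with `e = x r = x + s - x s`. For a unital ring this says that
`e ∈ x R` and `1 - e ∈ (1 - x) R`. -/
def IsExchange (R : Type) [NonUnitalRing R] : Prop :=
  ∀ x : R, ∃ e r s : R, e * e = e ∧ e = x * r ∧ e = x + s - x * s

/-- An exchange ring. -/
structure ExchObj : Type 1 where
  R : Type
  [inst : NonUnitalRing R]
  exch : IsExchange R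

attribute [instance] ExchObj.inst

instance ExchObj.category : Category ExchObj where
  Hom A B := A.R →ₙ+* B.R
  id A := NonUnitalRingHom.id A.R
  comp f g := g.comp f

/-! ### The monoid `V(R)` -/

section V

variable {R S : Type} [NonUnitalRing R] [NonUnitalRing S]

/-- Murray-von Neumann equivalence of square matrices. -/
def MvN {a b : Type} [Fintype a] [Fintype b] (p : Matrix a a R) (q : Matrix b b R) : Prop :=
  ∃ (x : Matrix a b R) (y : Matrix b a R), p = x * y ∧ q = y * x

/-- An idempotent square matrix, of any finite size, over `R`. -/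
structure Idem (R : Type) [NonUnitalRing R] : Type where
  k : ℕ
  p : Matrix (Fin k) (Fin k) R
  idem : p * p = p

theorem MvN.refl {a : Type} [Fintype a] {p : Matrix a a R} (hp : p * p = p) : MvN p p :=
  ⟨p, p, hp.symm, hp.symm⟩

theorem MvN.symm {a b : Type} [Fintype a] [Fintype b] {p : Matrix a a R} {q : Matrix b b R}
    (h : MvN p q) : MvN q p := by
  obtain ⟨x, y, h1, h2⟩ := h
  exact ⟨y, x, h2, h1⟩

theorem MvN.trans {a b c : Type} [Fintype a] [Fintype b] [Fintype c] {p : Matrix a a R}
    {q : Matrix b b R} {r : Matrix c c R} (hp : p * p = p) (hr : r * r = r)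
    (h : MvN p q) (h' : MvN q r) : MvN p r := by
  obtain ⟨x, y, h1, h2⟩ := h
  obtain ⟨x', y', h3, h4⟩ := h'
  refine ⟨x * x', y' * y, ?_, ?_⟩
  · calc p = p * p := hp.symm
      _ = x * (y * x) * y := by rw [h1]; simp only [Matrix.mul_assoc]
      _ = x * x' * (y' * y) := by rw [← h2, h3]; simp only [Matrix.mul_assoc]
  · calc r = r * r := hr.symm
      _ = y' * (x' * y') * x' := by rw [h4]; simp only [Matrix.mul_assoc]
      _ = y' * y * (x * x') := by rw [← h3, h2]; simp only [Matrix.mul_assoc]

theorem MvN.submatrix {a b : Type} [Fintype a] [Fintype b] {p : Matrix a a R} (hp : p * p = p)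
    (e : b ≃ a) : MvN p (p.submatrix e e) := by
  refine ⟨p.submatrix id e, p.submatrix e id, ?_, ?_⟩
  · rw [Matrix.submatrix_mul_equiv, hp, Matrix.submatrix_id_id]
  · have := Matrix.submatrix_mul_equiv p p e (Equiv.refl a) e
    rw [hp] at this
    exact this.symm

theorem fromBlocks_idem {a b : Type} [Fintype a] [Fintype b] {p : Matrix a a R}
    {q : Matrix b b R} (hp : p * p = p) (hq : q * q = q) :
    Matrix.fromBlocks p 0 0 q * Matrix.fromBlocks p 0 0 q = Matrix.fromBlocks p 0 0 q := by
  simp [Matrix.fromBlocks_multiply, hp, hq]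

theorem submatrix_idem {a b : Type} [Fintype a] [Fintype b] {p : Matrix a a R}
    (hp : p * p = p) (e : b ≃ a) : p.submatrix e e * p.submatrix e e = p.submatrix e e := by
  rw [Matrix.submatrix_mul_equiv, hp]

theorem MvN.fromBlocks {a b c d : Type} [Fintype a] [Fintype b] [Fintype c] [Fintype d]
    {p : Matrix a a R} {q : Matrix b b R} {p' : Matrix c c R} {q' : Matrix d d R}
    (h : MvN p p') (h' : MvN q q') :
    MvN (Matrix.fromBlocks p 0 0 q) (Matrix.fromBlocks p' 0 0 q') := by
  obtain ⟨x, y, h1, h2⟩ := h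
  obtain ⟨x', y', h3, h4⟩ := h'
  refine ⟨Matrix.fromBlocks x 0 0 x', Matrix.fromBlocks y 0 0 y', ?_, ?_⟩
  · simp [Matrix.fromBlocks_multiply, h1, h3]
  · simp [Matrix.fromBlocks_multiply, h2, h4]

instance Idem.setoid (R : Type) [NonUnitalRing R] : Setoid (Idem R) where
  r e f := MvN e.p f.p
  iseqv := ⟨fun e => MvN.refl e.idem, MvN.symm, fun {e _ g} => MvN.trans e.idem g.idem⟩

/-- The block sum `p ⊕ q` of two idempotent matrices. -/
def Idem.dsum (e f : Idem R) : Idem R where
  k := e.k + f.k
  p := (Matrix.fromBlocks e.p 0 0 f.p).submatrix finSumFinEquiv.symm finSumFinEquiv.symm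
  idem := submatrix_idem (fromBlocks_idem e.idem f.idem) _

/-- The empty matrix. -/
def Idem.zero : Idem R where
  k := 0
  p := 0
  idem := mul_zero _

/-- The image of an idempotent matrix under a ring homomorphism, entrywise. -/
def Idem.map (h : R →ₙ+* S) (e : Idem R) : Idem S where
  k := e.k
  p := e.p.map h
  idem := by rw [← Matrix.map_mul, e.idem]

theorem Idem.dsum_mvn (e f : Idem R) : MvN (Matrix.fromBlocks e.p 0 0 f.p) (e.dsum f).p :=
  MvN.submatrix (fromBlocks_idem e.idem f.idem) _

theorem Idem.dsum_congr {e f e' f' : Idem R} (h : e ≈ e') (h' : f ≈ f') :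
    e.dsum f ≈ e'.dsum f' :=
  MvN.trans (e.dsum f).idem (e'.dsum f').idem (e.dsum_mvn f).symm
    (MvN.trans (fromBlocks_idem e.idem f.idem) (e'.dsum f').idem (MvN.fromBlocks h h')
      (e'.dsum_mvn f'))

theorem Idem.dsum_comm (e f : Idem R) : e.dsum f ≈ f.dsum e := by
  refine MvN.trans (e.dsum f).idem (f.dsum e).idem (e.dsum_mvn f).symm
    (MvN.trans (fromBlocks_idem e.idem f.idem) (f.dsum e).idem ?_ (f.dsum_mvn e))
  have := MvN.submatrix (fromBlocks_idem e.idem f.idem) (Equiv.sumComm (Fin f.k) (Fin e.k))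
  convert this using 1
  ext i j
  rcases i with i | i <;> rcases j with j | j <;> rfl

theorem Idem.zero_dsum (e : Idem R) : Idem.zero.dsum e ≈ e := by
  refine MvN.trans (Idem.zero.dsum e).idem e.idem (Idem.zero.dsum_mvn e).symm ?_
  haveI : IsEmpty (Fin (Idem.zero : Idem R).k) := inferInstanceAs (IsEmpty (Fin 0))
  exact MvN.submatrix (fromBlocks_idem Idem.zero.idem e.idem)
    (Equiv.emptySum (Fin (Idem.zero : Idem R).k) (Fin e.k)).symm

theorem Idem.dsum_assoc (e f g : Idem R) : (e.dsum f).dsum g ≈ e.dsum (f.dsum g) := by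
  have h1 : MvN ((e.dsum f).dsum g).p
      (Matrix.fromBlocks (Matrix.fromBlocks e.p 0 0 f.p) 0 0 g.p) :=
    MvN.trans ((e.dsum f).dsum g).idem (fromBlocks_idem (fromBlocks_idem e.idem f.idem) g.idem)
      ((e.dsum f).dsum_mvn g).symm (MvN.fromBlocks (e.dsum_mvn f).symm (MvN.refl g.idem))
  have h2 : MvN (Matrix.fromBlocks e.p 0 0 (Matrix.fromBlocks f.p 0 0 g.p))
      (e.dsum (f.dsum g)).p :=
    MvN.trans (fromBlocks_idem e.idem (fromBlocks_idem f.idem g.idem)) (e.dsum (f.dsum g)).idem
      (MvN.fromBlocks (MvN.refl e.idem) (f.dsum_mvn g)) (e.dsum_mvn (f.dsum g))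
  refine MvN.trans ((e.dsum f).dsum g).idem (e.dsum (f.dsum g)).idem h1
    (MvN.trans (fromBlocks_idem (fromBlocks_idem e.idem f.idem) g.idem)
      (e.dsum (f.dsum g)).idem ?_ h2)
  have := MvN.submatrix (fromBlocks_idem (fromBlocks_idem e.idem f.idem) g.idem)
    (Equiv.sumAssoc (Fin e.k) (Fin f.k) (Fin g.k)).symm
  convert this using 1
  ext i j
  rcases i with i | i | i <;> rcases j with j | j | j <;> rfl

theorem Idem.map_congr (h : R →ₙ+* S) {e f : Idem R} (hef : e ≈ f) : e.map h ≈ f.map h := by
  obtain ⟨x, y, h1, h2⟩ := hef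
  refine ⟨x.map h, y.map h, ?_, ?_⟩
  · change e.p.map h = x.map h * y.map h
    rw [← Matrix.map_mul, ← h1]
  · change f.p.map h = y.map h * x.map h
    rw [← Matrix.map_mul, ← h2]

theorem Idem.map_dsum (h : R →ₙ+* S) (e f : Idem R) :
    (e.dsum f).map h = (e.map h).dsum (f.map h) := by
  unfold Idem.map Idem.dsum
  congr 1
  ext i j
  simp only [Matrix.map_apply, Matrix.submatrix_apply]
  rcases finSumFinEquiv.symm i with i | i <;> rcases finSumFinEquiv.symm j with j | j <;> simp

/-- `V(R)`: Murray-von Neumann classes of idempotent matrices over `R`. -/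
def V (R : Type) [NonUnitalRing R] : Type := Quotient (Idem.setoid R)

/-- The class `[e]` of an idempotent matrix. -/
def V.mk (e : Idem R) : V R := Quotient.mk _ e

instance : Zero (V R) := ⟨V.mk Idem.zero⟩

instance : Add (V R) := ⟨Quotient.map₂ Idem.dsum fun _ _ h _ _ h' => Idem.dsum_congr h h'⟩

instance : AddCommMonoid (V R) where
  add_assoc a b c := Quotient.inductionOn₃ a b c fun e f g => Quotient.sound (e.dsum_assoc f g)
  zero_add a := Quotient.inductionOn a fun e => Quotient.sound e.zero_dsum
  add_zero a := Quotient.inductionOn a fun e =>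
    Quotient.sound (Setoid.trans (e.dsum_comm Idem.zero) e.zero_dsum)
  add_comm a b := Quotient.inductionOn₂ a b fun e f => Quotient.sound (e.dsum_comm f)
  nsmul := nsmulRec

/-- The monoid homomorphism `V(h) : [e] ↦ [h(e)]`. -/
def V.map (h : R →ₙ+* S) : V R →+ V S where
  toFun := Quotient.map (Idem.map h) fun _ _ => Idem.map_congr h
  map_zero' := Quotient.sound
    ⟨0, 0, Subsingleton.elim (α := Matrix (Fin 0) (Fin 0) S) _ _,
      Subsingleton.elim (α := Matrix (Fin 0) (Fin 0) S) _ _⟩
  map_add' a b := Quotient.inductionOn₂ a b fun e f =>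
    congrArg V.mk (Idem.map_dsum h e f)

end V

/-- The functor `V` from exchange rings to commutative monoids. -/
def Vfunctor : ExchObj ⥤ AddCommMonCat.{0} where
  obj A := AddCommMonCat.of (V A.R)
  map h := AddCommMonCat.ofHom (V.map h)
  map_id A := by
    ext a
    exact Quotient.inductionOn a fun _ => rfl
  map_comp f g := by
    ext a
    exact Quotient.inductionOn a fun _ => rfl

end Pool.Agent.H663Z.Exch
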