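import Mathlib

set_option autoImplicit false

namespace Pool.Agent.H663Z.Exch

section Ext

variable {K L : Type} [CommRing K] [CommRing L] {a b c : Type}

/-- Extension of a square matrix by zero along a map of index sets. -/
noncomputable def extz (ι : a → b) (P : Matrix a a K) : Matrix b b K :=
  Matrix.of (Function.extend ι (fun i => Function.extend ι (P i) 0) 0)

theorem extz_apply {ι : a → b} (hι : Function.Injective ι) (P : Matrix a a K) (p q : a) :
    extz ι P (ι p) (ι q) = P p q := by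
  simp only [extz, Matrix.of_apply]
  rw [hι.extend_apply, hι.extend_apply]

theorem extz_left {ι : a → b} (P : Matrix a a K) {p : b} (hp : p ∉ Set.range ι) (q : b) :
    extz ι P p q = 0 := by
  simp only [extz, Matrix.of_apply]
  rw [Function.extend_apply' _ _ _ hp]
  rfl

theorem extz_right {ι : a → b} (hι : Function.Injective ι) (P : Matrix a a K) (p : b) {q : b}
    (hq : q ∉ Set.range ι) : extz ι P p q = 0 := by
  by_cases hp : p ∈ Set.range ι
  · obtain ⟨p, rfl⟩ := hp
    simp only [extz, Matrix.of_apply]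
    rw [hι.extend_apply, Function.extend_apply' _ _ _ hq]
    rfl
  · exact extz_left P hp q

theorem eq_extz {ι : a → b} (hι : Function.Injective ι) {P : Matrix a a K} {Q : Matrix b b K}
    (h1 : ∀ p q, Q (ι p) (ι q) = P p q) (h2 : ∀ p q, p ∉ Set.range ι → Q p q = 0)
    (h3 : ∀ p q, q ∉ Set.range ι → Q p q = 0) : Q = extz ι P := by
  ext p q
  by_cases hp : p ∈ Set.range ι
  · by_cases hq : q ∈ Set.range ι
    · obtain ⟨p, rfl⟩ := hp
      obtain ⟨q, rfl⟩ := hq
      rw [h1, extz_apply hι]
    · rw [h3 p q hq, extz_right hι P p hq]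
  · rw [h2 p q hp, extz_left P hp]

theorem extz_zero {ι : a → b} (hι : Function.Injective ι) : extz ι (0 : Matrix a a K) = 0 :=
  (eq_extz hι (fun _ _ => rfl) (fun _ _ _ => rfl) (fun _ _ _ => rfl)).symm

theorem extz_add {ι : a → b} (hι : Function.Injective ι) (P Q : Matrix a a K) :
    extz ι (P + Q) = extz ι P + extz ι Q := by
  refine (eq_extz hι (fun p q => ?_) (fun p q h => ?_) (fun p q h => ?_)).symm
  · rw [Matrix.add_apply, extz_apply hι, extz_apply hι, Matrix.add_apply]
  · rw [Matrix.add_apply, extz_left _ h, extz_left _ h, add_zero]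
  · rw [Matrix.add_apply, extz_right hι _ _ h, extz_right hι _ _ h, add_zero]

theorem extz_mul [Fintype a] [Fintype b] {ι : a → b} (hι : Function.Injective ι)
    (P Q : Matrix a a K) : extz ι (P * Q) = extz ι P * extz ι Q := by
  refine (eq_extz hι (fun p q => ?_) (fun p q h => ?_) (fun p q h => ?_)).symm
  · rw [Matrix.mul_apply, Matrix.mul_apply]
    refine (Fintype.sum_of_injective ι hι _ _ (fun i hi => ?_) (fun i => ?_)).symm
    · rw [extz_left _ hi, mul_zero]
    · rw [extz_apply hι, extz_apply hι]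
  · rw [Matrix.mul_apply]
    exact Finset.sum_eq_zero fun i _ => by rw [extz_left _ h, zero_mul]
  · rw [Matrix.mul_apply]
    exact Finset.sum_eq_zero fun i _ => by rw [extz_right hι _ _ h, mul_zero]

theorem extz_trace [Fintype a] [Fintype b] {ι : a → b} (hι : Function.Injective ι)
    (P : Matrix a a K) : (extz ι P).trace = P.trace := by
  refine (Fintype.sum_of_injective ι hι _ _ (fun i hi => ?_) (fun i => ?_)).symm
  · exact extz_left _ hi _
  · exact (extz_apply hι P i i).symm

theorem extz_id (P : Matrix a a K) : extz id P = P :=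
  (eq_extz Function.injective_id (fun _ _ => rfl) (fun p _ h => absurd ⟨p, rfl⟩ h)
    (fun _ q h => absurd ⟨q, rfl⟩ h)).symm

theorem extz_comp {ι : a → b} {κ : b → c} (hι : Function.Injective ι)
    (hκ : Function.Injective κ) (P : Matrix a a K) :
    extz κ (extz ι P) = extz (κ ∘ ι) P := by
  refine eq_extz (hκ.comp hι) (fun p q => ?_) (fun p q h => ?_) (fun p q h => ?_)
  · rw [Function.comp_apply, Function.comp_apply, extz_apply hκ, extz_apply hι]
  · by_cases hp : p ∈ Set.range κ
    · obtain ⟨p, rfl⟩ := hp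
      by_cases hq : q ∈ Set.range κ
      · obtain ⟨q, rfl⟩ := hq
        rw [extz_apply hκ, extz_left]
        rintro ⟨p, rfl⟩
        exact h ⟨p, rfl⟩
      · exact extz_right hκ _ _ hq
    · exact extz_left _ hp _
  · by_cases hq : q ∈ Set.range κ
    · obtain ⟨q, rfl⟩ := hq
      by_cases hp : p ∈ Set.range κ
      · obtain ⟨p, rfl⟩ := hp
        rw [extz_apply hκ, extz_right hι]
        rintro ⟨q, rfl⟩
        exact h ⟨q, rfl⟩
      · exact extz_left _ hp _
    · exact extz_right hκ _ _ hq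

theorem extz_map {ι : a → b} (hι : Function.Injective ι) (σ : K →+* L) (P : Matrix a a K) :
    (extz ι P).map σ = extz ι (P.map σ) := by
  refine eq_extz hι (fun p q => ?_) (fun p q h => ?_) (fun p q h => ?_)
  · rw [Matrix.map_apply, extz_apply hι, Matrix.map_apply]
  · rw [Matrix.map_apply, extz_left _ h, map_zero]
  · rw [Matrix.map_apply, extz_right hι _ _ h, map_zero]

/-- Two injections whose ranges partition the target. -/
structure Split (ι : a → c) (κ : b → c) : Prop where
  inj1 : Function.Injective ι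
  inj2 : Function.Injective κ
  disj : ∀ p q, ι p ≠ κ q
  cover : ∀ r, r ∈ Set.range ι ∨ r ∈ Set.range κ

theorem Split.nr1 {ι : a → c} {κ : b → c} (S : Split ι κ) (q : b) : κ q ∉ Set.range ι := by
  rintro ⟨p, hp⟩
  exact S.disj p q hp

theorem Split.nr2 {ι : a → c} {κ : b → c} (S : Split ι κ) (p : a) : ι p ∉ Set.range κ := by
  rintro ⟨q, hq⟩
  exact S.disj p q hq.symm

theorem Split.prod {ι : a → c} {κ : b → c} (S : Split ι κ) (m : Type) :
    Split (Prod.map (id : m → m) ι) (Prod.map (id : m → m) κ) where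
  inj1 := Function.injective_id.prodMap S.inj1
  inj2 := Function.injective_id.prodMap S.inj2
  disj p q h := S.disj p.2 q.2 (congrArg Prod.snd h)
  cover r := by
    rcases S.cover r.2 with ⟨p, hp⟩ | ⟨p, hp⟩
    · exact Or.inl ⟨(r.1, p), Prod.ext rfl hp⟩
    · exact Or.inr ⟨(r.1, p), Prod.ext rfl hp⟩

variable [Fintype a] [Fintype b] [Fintype c] [DecidableEq a] [DecidableEq b] [DecidableEq c]

/-- The block diagonal embedding attached to a splitting. -/
noncomputable def Split.blk {ι : a → c} {κ : b → c} (S : Split ι κ) (K : Type) [CommRing K] :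
    Matrix a a K × Matrix b b K →+* Matrix c c K where
  toFun z := extz ι z.1 + extz κ z.2
  map_zero' := by simp [extz_zero S.inj1, extz_zero S.inj2]
  map_add' z w := by
    rw [Prod.fst_add, Prod.snd_add, extz_add S.inj1, extz_add S.inj2]; abel
  map_one' := by
    ext p q
    rcases S.cover p with ⟨p, rfl⟩ | ⟨p, rfl⟩ <;> rcases S.cover q with ⟨q, rfl⟩ | ⟨q, rfl⟩
    · rw [Matrix.add_apply, extz_apply S.inj1, extz_left _ (S.nr2 p)]
      simp [Matrix.one_apply, S.inj1.eq_iff]
    · rw [Matrix.add_apply, extz_right S.inj1 _ _ (S.nr1 q), extz_left _ (S.nr2 p)]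
      simp [Matrix.one_apply, S.disj p q]
    · rw [Matrix.add_apply, extz_right S.inj2 _ _ (S.nr2 q), extz_left _ (S.nr1 p)]
      simp [Matrix.one_apply, (S.disj q p).symm]
    · rw [Matrix.add_apply, extz_apply S.inj2, extz_left _ (S.nr1 p)]
      simp [Matrix.one_apply, S.inj2.eq_iff]
  map_mul' z w := by
    have h1 : extz ι z.1 * extz κ w.2 = 0 := by
      ext p q
      rw [Matrix.mul_apply]
      refine Finset.sum_eq_zero fun i _ => ?_
      rcases S.cover i with ⟨i, rfl⟩ | ⟨i, rfl⟩
      · rw [extz_left _ (S.nr2 i), mul_zero]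
      · rw [extz_right S.inj1 _ _ (S.nr1 i), zero_mul]
    have h2 : extz κ z.2 * extz ι w.1 = 0 := by
      ext p q
      rw [Matrix.mul_apply]
      refine Finset.sum_eq_zero fun i _ => ?_
      rcases S.cover i with ⟨i, rfl⟩ | ⟨i, rfl⟩
      · rw [extz_right S.inj2 _ _ (S.nr2 i), zero_mul]
      · rw [extz_left _ (S.nr1 i), mul_zero]
    rw [Prod.fst_mul, Prod.snd_mul, extz_mul S.inj1, extz_mul S.inj2, add_mul, mul_add, mul_add,
      h1, h2, add_zero, zero_add]

theorem Split.blk_def {ι : a → c} {κ : b → c} (S : Split ι κ) (P : Matrix a a K)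
    (Q : Matrix b b K) : S.blk K (P, Q) = extz ι P + extz κ Q := rfl

theorem Split.blk11 {ι : a → c} {κ : b → c} (S : Split ι κ) (P : Matrix a a K)
    (Q : Matrix b b K) (p q : a) : S.blk K (P, Q) (ι p) (ι q) = P p q := by
  rw [S.blk_def, Matrix.add_apply, extz_apply S.inj1, extz_left _ (S.nr2 p), add_zero]

theorem Split.blk12 {ι : a → c} {κ : b → c} (S : Split ι κ) (P : Matrix a a K)
    (Q : Matrix b b K) (p : a) (q : b) : S.blk K (P, Q) (ι p) (κ q) = 0 := by
  rw [S.blk_def, Matrix.add_apply, extz_right S.inj1 _ _ (S.nr1 q), extz_left _ (S.nr2 p),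
    add_zero]

theorem Split.blk21 {ι : a → c} {κ : b → c} (S : Split ι κ) (P : Matrix a a K)
    (Q : Matrix b b K) (p : b) (q : a) : S.blk K (P, Q) (κ p) (ι q) = 0 := by
  rw [S.blk_def, Matrix.add_apply, extz_right S.inj2 _ _ (S.nr2 q), extz_left _ (S.nr1 p),
    add_zero]

theorem Split.blk22 {ι : a → c} {κ : b → c} (S : Split ι κ) (P : Matrix a a K)
    (Q : Matrix b b K) (p q : b) : S.blk K (P, Q) (κ p) (κ q) = Q p q := by
  rw [S.blk_def, Matrix.add_apply, extz_apply S.inj2, extz_left _ (S.nr1 p), zero_add]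

theorem Split.blk_trace {ι : a → c} {κ : b → c} (S : Split ι κ) (P : Matrix a a K)
    (Q : Matrix b b K) : (S.blk K (P, Q)).trace = P.trace + Q.trace := by
  rw [S.blk_def, Matrix.trace_add, extz_trace S.inj1, extz_trace S.inj2]

end Ext

section Graph

variable {P K : Type} [CommRing P] [IsDomain P] [Field K] [Algebra P K] [IsFractionRing P K]

/-- The graph of the specialisation of fractions along `s`. -/
def graph (K : Type) [Field K] [Algebra P K] (s : P →+* P) : Subring (K × K) where
  carrier := {z | ∃ p q : P, s q ≠ 0 ∧ z.1 * algebraMap P K q = algebraMap P K p ∧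
    z.2 * algebraMap P K (s q) = algebraMap P K (s p)}
  zero_mem' := ⟨0, 1, by simp, by simp, by simp⟩
  one_mem' := ⟨1, 1, by simp, by simp, by simp⟩
  add_mem' := by
    rintro z w ⟨p, q, h1, h2, h3⟩ ⟨p', q', h1', h2', h3'⟩
    refine ⟨p * q' + p' * q, q * q', by simp [h1, h1'], ?_, ?_⟩
    · simp only [map_add, map_mul, Prod.fst_add, ← h2, ← h2']; ring
    · simp only [map_add, map_mul, Prod.snd_add, ← h3, ← h3']; ring
  mul_mem' := by
    rintro z w ⟨p, q, h1, h2, h3⟩ ⟨p', q', h1', h2', h3'⟩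
    refine ⟨p * p', q * q', by simp [h1, h1'], ?_, ?_⟩
    · simp only [map_mul, Prod.fst_mul, ← h2, ← h2']; ring
    · simp only [map_mul, Prod.snd_mul, ← h3, ← h3']; ring
  neg_mem' := by
    rintro z ⟨p, q, h1, h2, h3⟩
    refine ⟨-p, q, h1, ?_, ?_⟩
    · simp only [map_neg, Prod.fst_neg, ← h2]; ring
    · simp only [map_neg, Prod.snd_neg, ← h3]; ring

theorem graph_poly (s : P →+* P) (p : P) :
    (algebraMap P K p, algebraMap P K (s p)) ∈ graph K s :=
  ⟨p, 1, by simp, by simp, by simp⟩

theorem graph_unit (s : P →+* P) (z : graph K s) (hz : z.1.2 ≠ 0) : IsUnit z := by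
  obtain ⟨z, p, q, h1, h2, h3⟩ := z
  have inj := IsFractionRing.injective P K
  have hsq : algebraMap P K (s q) ≠ 0 := fun h => h1 (inj (by rw [h, map_zero]))
  have hsp : s p ≠ 0 := fun h => by
    rw [h, map_zero] at h3
    exact mul_ne_zero hz hsq h3
  have hp : algebraMap P K p ≠ 0 := fun h => hsp (by
    rw [show p = 0 from inj (by rw [h, map_zero]), map_zero])
  have hz1 : z.1 ≠ 0 := fun h => hp (by rw [← h2, h, zero_mul])
  have hmem : (z.1⁻¹, z.2⁻¹) ∈ graph K s := by
    refine ⟨q, p, hsp, ?_, ?_⟩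
    · rw [← h2]; exact inv_mul_cancel_left₀ hz1 _
    · rw [← h3]; exact inv_mul_cancel_left₀ hz _
  refine IsUnit.of_mul_eq_one ⟨_, hmem⟩ (Subtype.ext (Prod.ext ?_ ?_))
  · exact mul_inv_cancel₀ hz1
  · exact mul_inv_cancel₀ hz

theorem graph_nat (s : P →+* P) {m n : ℕ} [CharZero K]
    (h : ((m : K), (n : K)) ∈ graph K s) : m = n := by
  by_contra hc
  have h2 : ((m : K), (n : K)) - (m : K × K) ∈ graph K s :=
    Subring.sub_mem _ h (natCast_mem _ m)
  have h3 := graph_unit s ⟨_, h2⟩ (by
    simp only [Prod.snd_sub, Prod.snd_natCast]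
    exact sub_ne_zero.2 (by exact_mod_cast Ne.symm hc))
  have h4 := h3.map ((RingHom.fst K K).comp (graph K s).subtype)
  simp at h4

end Graph

section Rel

variable {K : Type} [Field K] {n : Type}

/-- Entrywise membership of a pair of matrices in a subring of `K × K`. -/
def Rel (G : Subring (K × K)) (P Q : Matrix n n K) : Prop := ∀ p q, (P p q, Q p q) ∈ G

theorem Rel.zero (G : Subring (K × K)) : Rel G (0 : Matrix n n K) 0 := fun _ _ => G.zero_mem

theorem Rel.one [DecidableEq n] (G : Subring (K × K)) : Rel G (1 : Matrix n n K) 1 := by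
  intro p q
  by_cases h : p = q
  · subst h
    rw [Matrix.one_apply_eq]
    exact G.one_mem
  · rw [Matrix.one_apply_ne h]
    exact G.zero_mem

theorem Rel.add {G : Subring (K × K)} {P Q P' Q' : Matrix n n K} (h : Rel G P Q)
    (h' : Rel G P' Q') : Rel G (P + P') (Q + Q') := fun p q => G.add_mem (h p q) (h' p q)

theorem Rel.neg {G : Subring (K × K)} {P Q : Matrix n n K} (h : Rel G P Q) :
    Rel G (-P) (-Q) := fun p q => G.neg_mem (h p q)

theorem Rel.mul [Fintype n] {G : Subring (K × K)} {P Q P' Q' : Matrix n n K} (h : Rel G P Q)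
    (h' : Rel G P' Q') : Rel G (P * P') (Q * Q') := by
  intro p q
  have := G.sum_mem (t := Finset.univ) fun i _ => G.mul_mem (h p i) (h' i q)
  convert this using 1
  ext
  · simp [Matrix.mul_apply, Prod.fst_sum]
  · simp [Matrix.mul_apply, Prod.snd_sum]

theorem Rel.trace [Fintype n] {G : Subring (K × K)} {P Q : Matrix n n K} (h : Rel G P Q) :
    (P.trace, Q.trace) ∈ G := by
  have := G.sum_mem (t := Finset.univ) fun i _ => h i i
  convert this using 1
  ext
  · simp [Matrix.trace, Prod.fst_sum]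
  · simp [Matrix.trace, Prod.snd_sum]

theorem Rel.extz {m : Type} {ι : n → m} (hι : Function.Injective ι) {G : Subring (K × K)}
    {P Q : Matrix n n K} (h : Rel G P Q) : Rel G (extz ι P) (extz ι Q) := by
  intro p q
  by_cases hp : p ∈ Set.range ι
  · by_cases hq : q ∈ Set.range ι
    · obtain ⟨p, rfl⟩ := hp
      obtain ⟨q, rfl⟩ := hq
      rw [extz_apply hι, extz_apply hι]
      exact h p q
    · rw [extz_right hι _ _ hq, extz_right hι _ _ hq]
      exact G.zero_mem
  · rw [extz_left _ hp, extz_left _ hp]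
    exact G.zero_mem

theorem Rel.inv [Fintype n] [DecidableEq n] {G : Subring (K × K)}
    (hG : ∀ z : G, z.1.2 ≠ 0 → IsUnit z) {P Q : Matrix n n K} (h : Rel G P Q) (hQ : IsUnit Q) :
    IsUnit P ∧ Rel G P⁻¹ Q⁻¹ := by
  let A : Matrix n n G := Matrix.of fun p q => ⟨_, h p q⟩
  let φ1 : G →+* K := (RingHom.fst K K).comp G.subtype
  let φ2 : G →+* K := (RingHom.snd K K).comp G.subtype
  have h1 : A.map φ1 = P := rfl
  have h2 : A.map φ2 = Q := rfl
  have hd : IsUnit A.det := by
    apply hG
    change φ2 A.det ≠ 0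
    rw [RingHom.map_det, RingHom.mapMatrix_apply, h2]
    exact ((Matrix.isUnit_iff_isUnit_det Q).1 hQ).ne_zero
  have hB : A * A⁻¹ = 1 := Matrix.mul_nonsing_inv A hd
  have e1 : P * A⁻¹.map φ1 = 1 := by
    rw [← h1, ← Matrix.map_mul, hB, Matrix.map_one _ (map_zero _) (map_one _)]
  have e2 : Q * A⁻¹.map φ2 = 1 := by
    rw [← h2, ← Matrix.map_mul, hB, Matrix.map_one _ (map_zero _) (map_one _)]
  refine ⟨IsUnit.of_mul_eq_one _ e1, ?_⟩
  rw [Matrix.inv_eq_right_inv e1, Matrix.inv_eq_right_inv e2]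
  exact fun p q => (A⁻¹ p q).2

end Rel

end Pool.Agent.H663Z.Exch
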