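import Pool.Agent.H663Z.Exch.Ring

set_option autoImplicit false

namespace Pool.Agent.H663Z.Exch

open MvPolynomial CategoryTheory

section Maps

variable {A B C : SObj}

/-- Renaming of variables along an embedding. -/
def ren (φ : SHom A B) (v : Var A) : Var B :=
  (v.1, (φ.toHom v.2.1.1, v.2.1.2), (φ.toHom v.2.2.1, v.2.2.2))

theorem ren_inj (φ : SHom A B) : Function.Injective (ren φ) := by
  rintro ⟨i, ⟨x, a⟩, ⟨y, b⟩⟩ ⟨i', ⟨x', a'⟩, ⟨y', b'⟩⟩ h
  simp only [ren, Prod.mk.injEq] at h
  obtain ⟨h1, ⟨h2, h3⟩, h4, h5⟩ := h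
  rw [h1, φ.inj h2, h3, φ.inj h4, h5]

/-- Renaming on polynomials. -/
noncomputable def renP (φ : SHom A B) : PP A →+* PP B := (rename (ren φ) : PP A →ₐ[ℤ] PP B)

theorem renP_inj (φ : SHom A B) : Function.Injective (renP φ) := rename_injective _ (ren_inj φ)

theorem renP_X (φ : SHom A B) (v : Var A) : renP φ (X v) = X (ren φ v) := rename_X _ _

/-- Renaming on rational functions. -/
noncomputable def renK (φ : SHom A B) : KK A →+* KK B :=
  IsFractionRing.lift (A := PP A) (g := (algebraMap (PP B) (KK B)).comp (renP φ))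
    ((IsFractionRing.injective (PP B) (KK B)).comp (renP_inj φ))

theorem renK_alg (φ : SHom A B) (p : PP A) :
    renK φ (algebraMap (PP A) (KK A) p) = algebraMap (PP B) (KK B) (renP φ p) :=
  IsFractionRing.lift_algebraMap _ _

theorem renK_ext {L : Type} [Field L] {σ τ : KK A →+* L}
    (h : ∀ v, σ (algebraMap (PP A) (KK A) (X v)) = τ (algebraMap (PP A) (KK A) (X v))) :
    σ = τ := by
  apply IsLocalization.ringHom_ext (nonZeroDivisors (PP A))
  apply MvPolynomial.ringHom_ext
  · intro r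
    exact RingHom.congr_fun (RingHom.ext_int
      ((σ.comp (algebraMap (PP A) (KK A))).comp MvPolynomial.C)
      ((τ.comp (algebraMap (PP A) (KK A))).comp MvPolynomial.C)) r
  · exact h

theorem renK_id : renK (𝟙 A : SHom A A) = RingHom.id _ :=
  renK_ext fun v => by rw [renK_alg, renP_X]; rfl

theorem renK_comp (φ : A ⟶ B) (ψ : B ⟶ C) :
    renK (φ ≫ ψ : SHom A C) = (renK ψ).comp (renK φ) :=
  renK_ext fun v => by
    rw [RingHom.comp_apply, renK_alg, renK_alg, renP_X, renP_X, renK_alg, renP_X]; rfl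

theorem spec_ren (φ : SHom A B) (g : B.M →+ ℕ) (p : PP A) :
    spec B g (renP φ p) = renP φ (spec A (g.comp φ.toHom) p) := by
  have : (spec B g).comp (renP φ) = (renP φ).comp (spec A (g.comp φ.toHom)) := by
    apply MvPolynomial.ringHom_ext
    · intro r
      exact RingHom.congr_fun (RingHom.ext_int
        (((spec B g).comp (renP φ)).comp MvPolynomial.C)
        (((renP φ).comp (spec A (g.comp φ.toHom))).comp MvPolynomial.C)) r
    · intro v
      rw [RingHom.comp_apply, RingHom.comp_apply, renP_X, spec, spec, eval₂Hom_X', eval₂Hom_X']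
      simp only [ren, AddMonoidHom.comp_apply]
      split_ifs
      · rw [renP_X]; rfl
      · rw [renP_X]; rfl
      · rw [map_zero]
  exact RingHom.congr_fun this p

theorem graph_ren (φ : SHom A B) (g : B.M →+ ℕ) {k k' : KK A}
    (h : (k, k') ∈ graph (KK A) (spec A (g.comp φ.toHom))) :
    (renK φ k, renK φ k') ∈ graph (KK B) (spec B g) := by
  obtain ⟨p, q, h1, h2, h3⟩ := h
  refine ⟨renP φ p, renP φ q, ?_, ?_, ?_⟩
  · rw [spec_ren]
    exact fun h => h1 (renP_inj φ (by rw [h, map_zero]))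
  · rw [← renK_alg, ← renK_alg, ← h2, map_mul]
  · rw [spec_ren, spec_ren, ← renK_alg, ← renK_alg, ← h3, map_mul]

/-- The embedding of bases along an embedding of monoids. -/
def ixm (φ : SHom A B) (f : B.M →+ ℕ) (p : Ix A (f.comp φ.toHom)) : Ix B f :=
  ⟨(φ.toHom p.1.1, p.1.2), by
    obtain ⟨y, hy⟩ := p.2.1
    exact ⟨φ.toHom y, by rw [← map_add, hy, φ.map_u]⟩, p.2.2⟩

theorem ixm_inj (φ : SHom A B) (f : B.M →+ ℕ) : Function.Injective (ixm φ f) := fun p q h =>
  Ix.ext (Prod.ext (φ.inj (congrArg (fun z => z.1.1) h)) (congrArg (fun z => z.1.2) h :))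

/-- The map on the ambient products. -/
noncomputable def mapA (φ : SHom A B) (r : AA A) : AA B :=
  fun f => extz (ixm φ f) ((r (f.comp φ.toHom)).map (renK φ))

theorem mapA_mem (φ : SHom A B) (r : RR A) : mapA φ r.1 ∈ RR B := by
  intro g h
  have h1 := r.2 (g.comp φ.toHom) (h.comp φ.toHom)
  have h2 : Rel (graph (KK B) (spec B g))
      ((r.1 (g.comp φ.toHom + h.comp φ.toHom)).map (renK φ))
      (((split A (g.comp φ.toHom) (h.comp φ.toHom)).blk (KK A)
        (r.1 (g.comp φ.toHom), r.1 (h.comp φ.toHom))).map (renK φ)) :=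
    fun p q => graph_ren φ g (h1 p q)
  let ι : Ix A (g.comp φ.toHom + h.comp φ.toHom) → Ix B (g + h) := ixm φ (g + h)
  have hι : Function.Injective ι := ixm_inj φ (g + h)
  have h3 := h2.extz hι
  have S := split A (g.comp φ.toHom) (h.comp φ.toHom)
  have S' := split B g h
  have h4 : extz ι (((split A (g.comp φ.toHom) (h.comp φ.toHom)).blk (KK A)
        (r.1 (g.comp φ.toHom), r.1 (h.comp φ.toHom))).map (renK φ)) =
      (split B g h).blk (KK B) (mapA φ r.1 g, mapA φ r.1 h) := by
    rw [Split.blk_def, Split.blk_def, Matrix.map_add _ (map_add _), extz_add hι, extz_map S.inj1,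
      extz_map S.inj2, extz_comp S.inj1 hι, extz_comp S.inj2 hι, mapA, mapA,
      extz_comp (ixm_inj φ g) S'.inj1, extz_comp (ixm_inj φ h) S'.inj2]
    rfl
  rw [h4] at h3
  exact h3

/-- The ring homomorphism attached to an embedding. -/
noncomputable def mapR (φ : SHom A B) : RR A →ₙ+* RR B where
  toFun r := ⟨mapA φ r.1, mapA_mem φ r⟩
  map_zero' := Subtype.ext (funext fun f => by
    change extz (ixm φ f) ((0 : Matrix _ _ (KK A)).map (renK φ)) = 0
    rw [Matrix.map_zero _ (map_zero _), extz_zero (ixm_inj φ f)])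
  map_add' r s := Subtype.ext (funext fun f => by
    change extz (ixm φ f) ((r.1 _ + s.1 _).map (renK φ)) = mapA φ r.1 f + mapA φ s.1 f
    rw [Matrix.map_add _ (map_add _), extz_add (ixm_inj φ f)]
    rfl)
  map_mul' r s := Subtype.ext (funext fun f => by
    change extz (ixm φ f) ((r.1 _ * s.1 _).map (renK φ)) = mapA φ r.1 f * mapA φ s.1 f
    rw [Matrix.map_mul, extz_mul (ixm_inj φ f)]
    rfl)

theorem mapR_id (r : RR A) : mapR (𝟙 A : SHom A A) r = r := Subtype.ext (funext fun f => by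
  change extz id ((r.1 f).map (renK (𝟙 A : SHom A A))) = r.1 f
  rw [extz_id, renK_id]
  rfl)

theorem mapR_comp (φ : A ⟶ B) (ψ : B ⟶ C) (r : RR A) :
    mapR (φ ≫ ψ : SHom A C) r = mapR ψ (mapR φ r) := Subtype.ext (funext fun f => by
  change extz (ixm ψ f ∘ ixm φ (f.comp ψ.toHom))
      ((r.1 ((f.comp ψ.toHom).comp φ.toHom)).map (renK (φ ≫ ψ : SHom A C))) =
    extz (ixm ψ f) ((extz (ixm φ (f.comp ψ.toHom))
      ((r.1 ((f.comp ψ.toHom).comp φ.toHom)).map (renK φ))).map (renK ψ))
  rw [extz_map (ixm_inj φ _), extz_comp (ixm_inj φ _) (ixm_inj ψ f), renK_comp]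
  rfl)

end Maps

/-- The lifting functor. -/
noncomputable def Psi : SObj ⥤ ExchObj where
  obj A := { R := RR A, exch := fun x => (data A).exchange x }
  map φ := mapR φ
  map_id A := NonUnitalRingHom.ext fun r => mapR_id r
  map_comp φ ψ := NonUnitalRingHom.ext fun r => mapR_comp φ ψ r

section Eta

variable (A : SObj)

/-- The trace of a matrix in the representation of dimension vector `f`. -/
noncomputable def tau (f : A.M →+ ℕ) {m : Type} [Fintype m] (p : Matrix m m (RR A)) : KK A :=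
  ∑ a, (rep A f (p a a)).trace

theorem big_trace (f : A.M →+ ℕ) {m : Type} [Fintype m] [DecidableEq m] (p : Matrix m m (RR A)) :
    (big A f m p).trace = tau A f p := by
  rw [Matrix.trace, Fintype.sum_prod_type]
  rfl

theorem tau_mvn (f : A.M →+ ℕ) {a b : Type} [Fintype a] [Fintype b] {p : Matrix a a (RR A)}
    {q : Matrix b b (RR A)} (h : MvN p q) : tau A f p = tau A f q := by
  obtain ⟨x, y, rfl, rfl⟩ := h
  simp only [tau, Matrix.mul_apply, map_sum, Matrix.trace_sum, map_mul]
  rw [Finset.sum_comm]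
  exact Finset.sum_congr rfl fun _ _ => Finset.sum_congr rfl fun _ _ => Matrix.trace_mul_comm _ _

theorem tau_fromBlocks (f : A.M →+ ℕ) {a b : Type} [Fintype a] [Fintype b]
    (p : Matrix a a (RR A)) (q : Matrix b b (RR A)) :
    tau A f (Matrix.fromBlocks p 0 0 q) = tau A f p + tau A f q := by
  rw [tau, Fintype.sum_sum_type]
  rfl

theorem tau_zero (f : A.M →+ ℕ) {a : Type} [Fintype a] :
    tau A f (0 : Matrix a a (RR A)) = 0 :=
  Finset.sum_eq_zero fun _ _ => by rw [Matrix.zero_apply, map_zero, Matrix.trace_zero]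

theorem tau_rank (f : A.M →+ ℕ) {m : Type} [Fintype m] [DecidableEq m] {p : Matrix m m (RR A)}
    (hp : p * p = p) : tau A f p = ((big A f m p).rank : KK A) := by
  rw [← big_trace, trace_eq_rank]
  rw [← map_mul, hp]

/-- The class in the monoid of an idempotent matrix. -/
noncomputable def eta (e : Idem (RR A)) : A.M :=
  A.e.symm fun j => (big A (A.f j) (Fin e.k) e.p).rank

theorem eta_spec (e : Idem (RR A)) (f : A.M →+ ℕ) : (f (eta A e) : KK A) = tau A f e.p := by
  rw [tau_rank A f e.idem, Nat.cast_inj]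
  refine A.dual_induct (fun f => f (eta A e) = (big A f (Fin e.k) e.p).rank) ?_ ?_ ?_ f
  · rw [Subsingleton.elim (big A 0 (Fin e.k) e.p) 0, Matrix.rank_zero]
    rfl
  · intro j
    rw [A.f_apply, eta, AddEquiv.apply_symm_apply]
  · intro g h h1 h2
    have := (rel_big A g h e.p).trace
    rw [Split.blk_trace, big_trace, big_trace, big_trace, tau_rank A _ e.idem, tau_rank A _ e.idem,
      tau_rank A _ e.idem, ← Nat.cast_add] at this
    rw [graph_nat _ this, ← h1, ← h2]
    rfl

theorem eta_eq {e : Idem (RR A)} {x : A.M} (h : ∀ j, tau A (A.f j) e.p = (A.f j x : KK A)) :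
    eta A e = x :=
  A.sep fun j => Nat.cast_injective (R := KK A) (by rw [eta_spec, h])

theorem eta_congr {e e' : Idem (RR A)} (h : e ≈ e') : eta A e = eta A e' :=
  eta_eq A fun j => by rw [eta_spec]; exact tau_mvn A _ h

theorem eta_dsum (e e' : Idem (RR A)) : eta A (e.dsum e') = eta A e + eta A e' :=
  eta_eq A fun j => by
    rw [map_add, Nat.cast_add, eta_spec, eta_spec, ← tau_fromBlocks]
    exact (tau_mvn A _ (e.dsum_mvn e')).symm

theorem eta_zero : eta A Idem.zero = 0 :=
  eta_eq A fun j => by rw [map_zero, Nat.cast_zero]; exact tau_zero A _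

theorem mvn_left {R : Type} [Ring R] {a b : Type} [Fintype a] [Fintype b]
    {p : Matrix a a R} (hp : p * p = p) :
    MvN p (Matrix.fromBlocks p 0 0 (0 : Matrix b b R)) :=
  ⟨Matrix.fromCols p 0, Matrix.fromRows p 0, by simp [Matrix.fromCols_mul_fromRows, hp],
    by rw [Matrix.fromRows_mul_fromCols]; simp [hp]⟩

theorem mvn_right {R : Type} [Ring R] {a b : Type} [Fintype a] [Fintype b]
    {p : Matrix a a R} (hp : p * p = p) :
    MvN p (Matrix.fromBlocks (0 : Matrix b b R) 0 0 p) :=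
  ⟨Matrix.fromCols 0 p, Matrix.fromRows 0 p, by simp [Matrix.fromCols_mul_fromRows, hp],
    by rw [Matrix.fromRows_mul_fromCols]; simp [hp]⟩

theorem eta_inj {e e' : Idem (RR A)} (h : eta A e = eta A e') : e ≈ e' := by
  let m := Fin e.k ⊕ Fin e'.k ⊕ Unit
  let P : Matrix m m (RR A) := Matrix.fromBlocks e.p 0 0 0
  let Q0 : Matrix (Fin e'.k ⊕ Unit) (Fin e'.k ⊕ Unit) (RR A) := Matrix.fromBlocks e'.p 0 0 0
  let Q : Matrix m m (RR A) := Matrix.fromBlocks 0 0 0 Q0
  have hP : P * P = P := fromBlocks_idem e.idem (mul_zero _)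
  have hQ0 : Q0 * Q0 = Q0 := fromBlocks_idem e'.idem (mul_zero _)
  have hQ : Q * Q = Q := fromBlocks_idem (mul_zero _) hQ0
  have h1 : MvN e.p P := mvn_left e.idem
  have h2 : MvN e'.p Q := MvN.trans e'.idem hQ (mvn_left e'.idem) (mvn_right hQ0)
  have h3 : MvN P Q := (dataM A m (Sum.inr (Sum.inr ()))).equiv_of_rk P hP Q hQ fun j => by
    apply Nat.cast_injective (R := KK A)
    change ((big A (A.f j) m P).rank : KK A) = (big A (A.f j) m Q).rank
    rw [← tau_rank A _ hP, ← tau_rank A _ hQ, ← tau_mvn A _ h1, ← tau_mvn A _ h2, ← eta_spec,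
      ← eta_spec, h]
  exact MvN.trans e.idem e'.idem h1 (MvN.trans hP e'.idem h3 h2.symm)

theorem eta_surj (x : A.M) : ∃ e, eta A e = x := by
  refine A.elt_induct (fun x => ∃ e, eta A e = x) ⟨_, eta_zero A⟩ ?_ ?_ x
  · intro j
    refine ⟨⟨1, Matrix.of fun _ _ => idm A (A.a j), ?_⟩, eta_eq A fun j' => ?_⟩
    · refine Matrix.ext fun a b => ?_
      rw [Matrix.mul_apply, Fin.sum_univ_one]
      exact idm_idem A _
    · change ∑ _a : Fin 1, (rep A (A.f j') (idm A (A.a j))).trace = _
      rw [Fin.sum_univ_one, A.f_a]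
      split_ifs with hj
      · subst hj
        rw [rep_idm_self, Matrix.trace_single_eq_same, Nat.cast_one]
      · rw [rep_idm_ne A j j' hj, Matrix.trace_zero, Nat.cast_zero]
  · rintro _ _ ⟨e, rfl⟩ ⟨e', rfl⟩
    exact ⟨_, eta_dsum A e e'⟩

/-- The isomorphism `V(Ψ A) ≃ A`. -/
noncomputable def etaEquiv : V (RR A) ≃+ A.M :=
  AddEquiv.ofBijective
    ({ toFun := Quotient.lift (eta A) fun _ _ => eta_congr A
       map_zero' := eta_zero A
       map_add' := fun a b => Quotient.inductionOn₂ a b fun e e' => eta_dsum A e e' } :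
      V (RR A) →+ A.M)
    ⟨fun a b => Quotient.inductionOn₂ a b fun _ _ h => Quotient.sound (eta_inj A h),
      fun x => by
        obtain ⟨e, he⟩ := eta_surj A x
        exact ⟨V.mk e, he⟩⟩

theorem eta_nat {B : SObj} (φ : SHom A B) (e : Idem (RR A)) :
    eta B (e.map (mapR φ)) = φ.toHom (eta A e) :=
  eta_eq B fun j => by
    have h1 := congrArg (renK φ) (eta_spec A e ((B.f j).comp φ.toHom))
    rw [map_natCast] at h1
    refine Eq.trans ?_ h1.symm
    rw [tau, tau, map_sum]
    refine Finset.sum_congr rfl fun a _ => ?_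
    change (extz (ixm φ (B.f j)) (((e.p a a).1 _).map (renK φ))).trace = _
    rw [extz_trace (ixm_inj φ _), rep_apply, Matrix.trace, Matrix.trace, map_sum]
    rfl

end Eta

theorem main : ∃ Ψ : SObj ⥤ ExchObj, Nonempty (Ψ ⋙ Vfunctor ≅ incl) :=
  ⟨Psi, ⟨NatIso.ofComponents (fun A => (etaEquiv A).toAddCommMonCatIso) fun {A B} φ => by
    ext a
    exact Quotient.inductionOn a fun e => eta_nat A φ e⟩⟩

end Pool.Agent.H663Z.Exch
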