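import Pool.Agent.H663Z.Exch.Defs
import Pool.Agent.H663Z.Exch.Abstract
import Pool.Agent.H663Z.Exch.Ext

set_option autoImplicit false

namespace Pool.Agent.H663Z.Exch

open MvPolynomial

variable (A : SObj)

/-- The dimension of the simplicial monoid. -/
noncomputable def SObj.n : ℕ := A.simplicial.choose

/-- Coordinates on the simplicial monoid. -/
noncomputable def SObj.e : A.M ≃+ (Fin A.n → ℕ) := A.simplicial.choose_spec.some

/-- Coordinate functionals. -/
noncomputable def SObj.f (j : Fin A.n) : A.M →+ ℕ :=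
  (Pi.evalAddMonoidHom (fun _ : Fin A.n => ℕ) j).comp A.e.toAddMonoidHom

/-- Atoms. -/
noncomputable def SObj.a (j : Fin A.n) : A.M := A.e.symm (Pi.single j 1)

theorem SObj.f_apply (j : Fin A.n) (x : A.M) : A.f j x = A.e x j := rfl

theorem SObj.f_a (j j' : Fin A.n) : A.f j' (A.a j) = if j' = j then 1 else 0 := by
  rw [SObj.f_apply, SObj.a, AddEquiv.apply_symm_apply, Pi.single_apply]

theorem SObj.sep {x y : A.M} (h : ∀ j, A.f j x = A.f j y) : x = y :=
  A.e.injective (funext h)

theorem SObj.a_le (j : Fin A.n) : ∃ y, A.a j + y = A.u := by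
  obtain ⟨y, k, h⟩ := A.orderUnit (A.a j)
  have h1 := congrArg (A.f j) h
  rw [map_add, map_nsmul, A.f_a, if_pos rfl, smul_eq_mul] at h1
  have h2 : 1 ≤ A.f j A.u := by
    rcases Nat.eq_zero_or_pos (A.f j A.u) with h0 | h0
    · rw [h0] at h1; omega
    · exact h0
  refine ⟨A.e.symm (A.e A.u - Pi.single j 1), A.sep fun j' => ?_⟩
  rw [map_add, A.f_a, A.f_apply, AddEquiv.apply_symm_apply, Pi.sub_apply, Pi.single_apply,
    ← A.f_apply]
  split_ifs with hj
  · subst hj; omega
  · omega

theorem SObj.eq_sum (x : A.M) : x = ∑ j, A.f j x • A.a j := by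
  refine A.sep fun j' => ?_
  rw [map_sum]
  simp [A.f_a]

theorem SObj.dual_induct (P : (A.M →+ ℕ) → Prop) (h0 : P 0) (h1 : ∀ j, P (A.f j))
    (h2 : ∀ g h, P g → P h → P (g + h)) (f : A.M →+ ℕ) : P f := by
  have : f = ∑ j, f (A.a j) • A.f j := by
    ext x
    conv_lhs => rw [A.eq_sum x]
    rw [map_sum, AddMonoidHom.finsetSum_apply]
    refine Finset.sum_congr rfl fun j _ => ?_
    simp [mul_comm]
  rw [this]
  refine Finset.sum_induction _ P h2 h0 fun j _ => ?_
  induction f (A.a j) with
  | zero => rw [zero_smul]; exact h0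
  | succ k ih => rw [succ_nsmul]; exact h2 _ _ ih (h1 j)

theorem SObj.elt_induct (P : A.M → Prop) (h0 : P 0) (h1 : ∀ j, P (A.a j))
    (h2 : ∀ g h, P g → P h → P (g + h)) (x : A.M) : P x := by
  rw [A.eq_sum x]
  refine Finset.sum_induction _ P h2 h0 fun j _ => ?_
  induction A.f j x with
  | zero => rw [zero_smul]; exact h0
  | succ k ih => rw [succ_nsmul]; exact h2 _ _ ih (h1 j)

/-- Basis of the representation of dimension vector `f`. -/
@[ext]
structure Ix (f : A.M →+ ℕ) : Type where
  val : A.M × ℕ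
  prop : (∃ y, val.1 + y = A.u) ∧ val.2 < f val.1

instance (f : A.M →+ ℕ) : Finite (Ix A f) := by
  have h1 : {x : A.M | ∃ y, x + y = A.u}.Finite := by
    refine Set.Finite.of_finite_image (f := A.e) ((Set.finite_Iic (A.e A.u)).subset ?_)
      A.e.injective.injOn
    rintro _ ⟨x, ⟨y, hy⟩, rfl⟩
    rw [← hy, map_add]
    intro j
    exact Nat.le_add_right _ _
  have h2 : {p : A.M × ℕ | (∃ y, p.1 + y = A.u) ∧ p.2 < f p.1}.Finite := by
    refine (h1.prod (Set.finite_lt_nat (f A.u))).subset ?_
    rintro p ⟨⟨y, hy⟩, h⟩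
    refine ⟨⟨y, hy⟩, ?_⟩
    change p.2 < f A.u
    rw [← hy, map_add]
    omega
  haveI := h2.to_subtype
  exact Finite.of_injective (β := {p : A.M × ℕ | (∃ y, p.1 + y = A.u) ∧ p.2 < f p.1})
    (fun p => ⟨p.1, p.2⟩) fun p q h => Ix.ext (congrArg Subtype.val h)

noncomputable instance (f : A.M →+ ℕ) : Fintype (Ix A f) := Fintype.ofFinite _

noncomputable instance (f : A.M →+ ℕ) : DecidableEq (Ix A f) := Classical.decEq _

/-- Variables. -/
abbrev Var : Type := ℕ × (A.M × ℕ) × (A.M × ℕ)

/-- Polynomials. -/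
abbrev PP : Type := MvPolynomial (Var A) ℤ

/-- Rational functions. -/
def KK : Type := FractionRing (PP A)

noncomputable instance : Field (KK A) := inferInstanceAs (Field (FractionRing (PP A)))

noncomputable instance : Algebra (PP A) (KK A) :=
  inferInstanceAs (Algebra (PP A) (FractionRing (PP A)))

instance : IsFractionRing (PP A) (KK A) :=
  inferInstanceAs (IsFractionRing (PP A) (FractionRing (PP A)))

instance : CharZero (KK A) := IsFractionRing.charZero_of_isFractionRing (PP A)

/-- Specialisation of the variables to a block sum. -/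
noncomputable def spec (g : A.M →+ ℕ) : PP A →+* PP A :=
  eval₂Hom C fun v =>
    if v.2.1.2 < g v.2.1.1 ∧ v.2.2.2 < g v.2.2.1 then X v
    else if g v.2.1.1 ≤ v.2.1.2 ∧ g v.2.2.1 ≤ v.2.2.2 then
      X (v.1, (v.2.1.1, v.2.1.2 - g v.2.1.1), (v.2.2.1, v.2.2.2 - g v.2.2.1))
    else 0

/-- First block. -/
def in1 (g h : A.M →+ ℕ) (p : Ix A g) : Ix A (g + h) :=
  ⟨p.1, p.2.1, lt_of_lt_of_le p.2.2 (Nat.le_add_right _ _)⟩

/-- Second block. -/
def in2 (g h : A.M →+ ℕ) (p : Ix A h) : Ix A (g + h) :=
  ⟨(p.1.1, g p.1.1 + p.1.2), p.2.1, Nat.add_lt_add_left p.2.2 _⟩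

theorem split (g h : A.M →+ ℕ) : Split (in1 A g h) (in2 A g h) where
  inj1 p q hpq := Ix.ext (congrArg Ix.val hpq :)
  inj2 p q hpq := by
    have h1 : p.1.1 = q.1.1 := congrArg (fun z => z.1.1) hpq
    have h2 : g p.1.1 + p.1.2 = g q.1.1 + q.1.2 := congrArg (fun z => z.1.2) hpq
    rw [h1] at h2
    exact Ix.ext (Prod.ext h1 (by omega))
  disj p q hpq := by
    have h1 : p.1.1 = q.1.1 := congrArg (fun z => z.1.1) hpq
    have h2 : p.1.2 = g q.1.1 + q.1.2 := congrArg (fun z => z.1.2) hpq
    have h3 := p.2.2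
    rw [h1] at h3
    omega
  cover r := by
    by_cases hr : r.1.2 < g r.1.1
    · exact Or.inl ⟨⟨r.1, r.2.1, hr⟩, rfl⟩
    · have h3 : r.1.2 < g r.1.1 + h r.1.1 := r.2.2
      refine Or.inr ⟨⟨(r.1.1, r.1.2 - g r.1.1), r.2.1, by dsimp only; omega⟩, ?_⟩
      refine Ix.ext (Prod.ext rfl ?_)
      change g r.1.1 + (r.1.2 - g r.1.1) = r.1.2
      omega

/-- The ambient product of matrix rings. -/
abbrev AA : Type := (f : A.M →+ ℕ) → Matrix (Ix A f) (Ix A f) (KK A)

/-- The ring attached to a simplicial monoid with order-unit. -/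
noncomputable def RR : Subring (AA A) where
  carrier := {r | ∀ g h, Rel (graph (KK A) (spec A g)) (r (g + h))
    ((split A g h).blk (KK A) (r g, r h))}
  zero_mem' g h := by
    have : (split A g h).blk (KK A) ((0 : AA A) g, (0 : AA A) h) = 0 := map_zero _
    rw [this]; exact Rel.zero _
  one_mem' g h := by
    have : (split A g h).blk (KK A) ((1 : AA A) g, (1 : AA A) h) = 1 := map_one _
    rw [this]; exact Rel.one _
  add_mem' {r s} hr hs g h := by
    have : (split A g h).blk (KK A) ((r + s) g, (r + s) h) = _ :=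
      map_add ((split A g h).blk (KK A)) (r g, r h) (s g, s h)
    rw [this]; exact (hr g h).add (hs g h)
  mul_mem' {r s} hr hs g h := by
    have : (split A g h).blk (KK A) ((r * s) g, (r * s) h) = _ :=
      map_mul ((split A g h).blk (KK A)) (r g, r h) (s g, s h)
    rw [this]; exact (hr g h).mul (hs g h)
  neg_mem' {r} hr g h := by
    have : (split A g h).blk (KK A) ((-r) g, (-r) h) = _ :=
      map_neg ((split A g h).blk (KK A)) (r g, r h)
    rw [this]; exact (hr g h).neg

/-- The representation of dimension vector `f`. -/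
noncomputable def rep (f : A.M →+ ℕ) : RR A →+* Matrix (Ix A f) (Ix A f) (KK A) :=
  (Pi.evalRingHom (fun f : A.M →+ ℕ => Matrix (Ix A f) (Ix A f) (KK A)) f).comp (RR A).subtype

theorem rep_apply (f : A.M →+ ℕ) (r : RR A) : rep A f r = r.1 f := rfl

/-- The representation of dimension vector `f` on matrices. -/
noncomputable def big (f : A.M →+ ℕ) (m : Type) [Fintype m] [DecidableEq m] :
    Matrix m m (RR A) →+* Matrix (m × Ix A f) (m × Ix A f) (KK A) :=
  (Matrix.compRingEquiv m (Ix A f) (KK A)).toRingHom.comp (RingHom.mapMatrix (rep A f))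

theorem big_apply (f : A.M →+ ℕ) {m : Type} [Fintype m] [DecidableEq m] (α : Matrix m m (RR A))
    (p q : m × Ix A f) : big A f m α p q = (α p.1 q.1).1 f p.2 q.2 := rfl

theorem blk_prod (g h : A.M →+ ℕ) {m : Type} [Fintype m] [DecidableEq m]
    (P : Matrix (m × Ix A g) (m × Ix A g) (KK A)) (Q : Matrix (m × Ix A h) (m × Ix A h) (KK A))
    (a b : m) (p q : Ix A (g + h)) :
    ((split A g h).prod m).blk (KK A) (P, Q) (a, p) (b, q) =
      (split A g h).blk (KK A) (Matrix.of fun p q => P (a, p) (b, q),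
        Matrix.of fun p q => Q (a, p) (b, q)) p q := by
  have S := split A g h
  rcases S.cover p with ⟨p, rfl⟩ | ⟨p, rfl⟩ <;> rcases S.cover q with ⟨q, rfl⟩ | ⟨q, rfl⟩
  · rw [Split.blk11]; exact (S.prod m).blk11 P Q (a, p) (b, q)
  · rw [Split.blk12]; exact (S.prod m).blk12 P Q (a, p) (b, q)
  · rw [Split.blk21]; exact (S.prod m).blk21 P Q (a, p) (b, q)
  · rw [Split.blk22]; exact (S.prod m).blk22 P Q (a, p) (b, q)

theorem rel_big (g h : A.M →+ ℕ) {m : Type} [Fintype m] [DecidableEq m] (α : Matrix m m (RR A)) :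
    Rel (graph (KK A) (spec A g)) (big A (g + h) m α)
      (((split A g h).prod m).blk (KK A) (big A g m α, big A h m α)) := by
  rintro ⟨a, p⟩ ⟨b, q⟩
  rw [blk_prod]
  exact (α a b).2 g h p q

instance : IsEmpty (Ix A 0) := ⟨fun p => absurd p.2.2 (Nat.not_lt_zero _)⟩

theorem loc_big {m : Type} [Fintype m] [DecidableEq m] (α : Matrix m m (RR A))
    (hα : ∀ j, IsUnit (big A (A.f j) m α)) : IsUnit α := by
  have hpair : ∀ g h, IsUnit (big A g m α) → IsUnit (big A h m α) →
      IsUnit (((split A g h).prod m).blk (KK A) (big A g m α, big A h m α)) := fun g h h1 h2 =>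
    (Prod.isUnit_iff.2 ⟨h1, h2⟩).map _
  have hall : ∀ f, IsUnit (big A f m α) := by
    refine A.dual_induct _ (isUnit_of_subsingleton _) hα fun g h h1 h2 => ?_
    exact ((rel_big A g h α).inv (graph_unit _) (hpair g h h1 h2)).1
  have hmem : ∀ a b : m, (fun f => Matrix.of fun p q => (big A f m α)⁻¹ (a, p) (b, q) : AA A)
      ∈ RR A := by
    intro a b g h p q
    have h1 := ((rel_big A g h α).inv (graph_unit _) (hpair g h (hall g) (hall h))).2 (a, p) (b, q)
    have h2 : (((split A g h).prod m).blk (KK A) (big A g m α, big A h m α))⁻¹ =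
        ((split A g h).prod m).blk (KK A) ((big A g m α)⁻¹, (big A h m α)⁻¹) := by
      apply Matrix.inv_eq_right_inv
      rw [← map_mul, Prod.mk_mul_mk,
        Matrix.mul_nonsing_inv _ ((Matrix.isUnit_iff_isUnit_det _).1 (hall g)),
        Matrix.mul_nonsing_inv _ ((Matrix.isUnit_iff_isUnit_det _).1 (hall h))]
      exact map_one _
    rw [h2, blk_prod] at h1
    exact h1
  let β : Matrix m m (RR A) := Matrix.of fun a b => ⟨_, hmem a b⟩
  have hβ : ∀ f, big A f m β = (big A f m α)⁻¹ := fun f => rfl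
  have hinj : ∀ γ δ : Matrix m m (RR A), (∀ f, big A f m γ = big A f m δ) → γ = δ := by
    intro γ δ hh
    ext a b f p q
    exact congrFun (congrFun (hh f) (a, p)) (b, q)
  refine ⟨⟨α, β, hinj _ _ fun f => ?_, hinj _ _ fun f => ?_⟩, rfl⟩
  · rw [map_mul, map_one, hβ,
      Matrix.mul_nonsing_inv _ ((Matrix.isUnit_iff_isUnit_det _).1 (hall f))]
  · rw [map_mul, map_one, hβ,
      Matrix.nonsing_inv_mul _ ((Matrix.isUnit_iff_isUnit_det _).1 (hall f))]

open Classical in
/-- The vertex idempotents. -/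
noncomputable def idm (x : A.M) : RR A :=
  ⟨fun f => Matrix.diagonal fun p => if p.1.1 = x then 1 else 0, fun g h p q => by
    have S := split A g h
    have h01 : ∀ (c : Prop) [Decidable c], ((if c then 1 else 0 : KK A), (if c then 1 else 0 : KK A))
        ∈ graph (KK A) (spec A g) := fun c _ => by
      split_ifs
      · exact one_mem _
      · exact zero_mem _
    rcases S.cover p with ⟨p, rfl⟩ | ⟨p, rfl⟩ <;> rcases S.cover q with ⟨q, rfl⟩ | ⟨q, rfl⟩
    · rw [Split.blk11]
      by_cases hpq : p = q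
      · subst hpq
        simp only [Matrix.diagonal_apply_eq]
        exact h01 _
      · simp only [Matrix.diagonal_apply_ne _ hpq, Matrix.diagonal_apply_ne _ (S.inj1.ne hpq)]
        exact zero_mem _
    · rw [Split.blk12]
      simp only [Matrix.diagonal_apply_ne _ (S.disj p q)]
      exact zero_mem _
    · rw [Split.blk21]
      simp only [Matrix.diagonal_apply_ne _ (S.disj q p).symm]
      exact zero_mem _
    · rw [Split.blk22]
      by_cases hpq : p = q
      · subst hpq
        simp only [Matrix.diagonal_apply_eq]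
        exact h01 _
      · simp only [Matrix.diagonal_apply_ne _ hpq, Matrix.diagonal_apply_ne _ (S.inj2.ne hpq)]
        exact zero_mem _⟩

/-- The generic matrices. -/
noncomputable def gen (i : ℕ) : RR A :=
  ⟨fun f => Matrix.of fun p q => algebraMap (PP A) (KK A) (X (i, p.1, q.1)), fun g h p q => by
    have S := split A g h
    have key := graph_poly (K := KK A) (spec A g) (X (i, p.1, q.1))
    rw [spec, eval₂Hom_X'] at key
    rcases S.cover p with ⟨p, rfl⟩ | ⟨p, rfl⟩ <;> rcases S.cover q with ⟨q, rfl⟩ | ⟨q, rfl⟩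
    · rw [Split.blk11]
      rw [if_pos ⟨p.2.2, q.2.2⟩] at key
      exact key
    · rw [Split.blk12]
      have h1 : p.1.2 < g p.1.1 := p.2.2
      rw [if_neg (by simp [in2]), if_neg (by simp only [in1]; omega), map_zero] at key
      exact key
    · rw [Split.blk21]
      have h1 : q.1.2 < g q.1.1 := q.2.2
      rw [if_neg (by simp [in2]), if_neg (by simp only [in1]; omega), map_zero] at key
      exact key
    · rw [Split.blk22]
      rw [if_neg (by simp [in2]), if_pos (by simp [in2])] at key
      simp only [in2, Nat.add_sub_cancel_left] at key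
      exact key⟩

theorem gen_det (f : A.M →+ ℕ) (w : Ix A f → Ix A f → Var A)
    (hw : ∀ b c b' c', w b c = w b' c' → b = b' ∧ c = c') :
    (Matrix.of fun b c => algebraMap (PP A) (KK A) (X (w b c))).det ≠ 0 := by
  classical
  let G : Matrix (Ix A f) (Ix A f) (PP A) := Matrix.of fun b c => X (w b c)
  have h1 : (Matrix.of fun b c => algebraMap (PP A) (KK A) (X (w b c))) =
      (algebraMap (PP A) (KK A)).mapMatrix G := rfl
  rw [h1, ← RingHom.map_det]
  intro h
  have h2 : G.det = 0 := IsFractionRing.injective (PP A) (KK A) (by rw [h, map_zero])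
  let ev : PP A →+* ℤ := eval fun v => if ∃ b, w b b = v then 1 else 0
  have h3 : ev.mapMatrix G = 1 := by
    ext b c
    simp only [G, ev, RingHom.mapMatrix_apply, Matrix.map_apply, Matrix.of_apply, eval_X,
      Matrix.one_apply]
    by_cases hbc : b = c
    · subst hbc
      rw [if_pos ⟨b, rfl⟩, if_pos rfl]
    · rw [if_neg hbc, if_neg]
      rintro ⟨d, hd⟩
      obtain ⟨e1, e2⟩ := hw _ _ _ _ hd
      exact hbc (e1.symm.trans e2)
  have h4 := RingHom.map_det ev G
  rw [h2, h3, Matrix.det_one, map_zero] at h4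
  exact zero_ne_one h4

/-- An injection of the basis into `ℕ`. -/
noncomputable def idx (f : A.M →+ ℕ) (b : Ix A f) : ℕ := Fintype.equivFin _ b

theorem idx_inj (f : A.M →+ ℕ) : Function.Injective (idx A f) := fun _ _ h =>
  (Fintype.equivFin _).injective (Fin.ext h)

theorem span_col (f : A.M →+ ℕ) (v : Ix A f) (w : Ix A f → KK A)
    (h : ∀ r : RR A, ∑ b, w b * rep A f r b v = 0) : w = 0 := by
  refine Matrix.eq_zero_of_vecMul_eq_zero (gen_det A f (fun b c => (idx A f c, b.1, v.1)) ?_) ?_
  · intro b c b' c' hh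
    exact ⟨Ix.ext (congrArg (fun z => z.2.1) hh), idx_inj A f (congrArg Prod.fst hh)⟩
  · ext c
    exact h (gen A (idx A f c))

theorem span_row (f : A.M →+ ℕ) (v : Ix A f) (w : Ix A f → KK A)
    (h : ∀ r : RR A, ∑ b, rep A f r v b * w b = 0) : w = 0 := by
  refine Matrix.eq_zero_of_mulVec_eq_zero (gen_det A f (fun c b => (idx A f c, v.1, b.1)) ?_) ?_
  · intro b c b' c' hh
    exact ⟨idx_inj A f (congrArg Prod.fst hh), Ix.ext (congrArg (fun z => z.2.2) hh)⟩
  · ext c
    exact h (gen A (idx A f c))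

/-- The distinguished basis vector. -/
noncomputable def vv (j : Fin A.n) : Ix A (A.f j) := ⟨(A.a j, 0), A.a_le j, by simp [A.f_a]⟩

theorem rep_idm_self (j : Fin A.n) :
    rep A (A.f j) (idm A (A.a j)) = Matrix.single (vv A j) (vv A j) 1 := by
  classical
  have key : ∀ p : Ix A (A.f j), p.1.1 = A.a j ↔ vv A j = p := by
    intro p
    constructor
    · intro h
      have h2 := p.2.2
      rw [h, A.f_a, if_pos rfl] at h2
      exact Ix.ext (Prod.ext h.symm (by change 0 = p.1.2; omega))
    · rintro rfl; rfl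
  ext p q
  rw [rep_apply]
  simp only [idm, Matrix.diagonal_apply, Matrix.single_apply, key]
  by_cases h1 : p = q
  · subst h1; simp
  · rw [if_neg h1, if_neg]
    rintro ⟨rfl, rfl⟩
    exact h1 rfl

theorem rep_idm_ne (j j' : Fin A.n) (h : j' ≠ j) : rep A (A.f j') (idm A (A.a j)) = 0 := by
  classical
  ext p q
  rw [rep_apply]
  have : ¬ p.1.1 = A.a j := fun hp => by
    have h2 := p.2.2
    rw [hp, A.f_a, if_neg h] at h2
    omega
  simp [idm, Matrix.diagonal_apply, this]

theorem idm_idem (x : A.M) : idm A x * idm A x = idm A x := by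
  refine Subtype.ext (funext fun f => ?_)
  change (idm A x).1 f * (idm A x).1 f = (idm A x).1 f
  simp only [idm, Matrix.diagonal_mul_diagonal]
  congr 1
  ext p
  split_ifs <;> simp

/-- The semiperfect data of the ring. -/
noncomputable def data : Data (RR A) (KK A) (Fin A.n) (fun j => Ix A (A.f j)) where
  π j := rep A (A.f j)
  v := vv A
  ε j := idm A (A.a j)
  ε_idem _ := idm_idem A _
  π_self := rep_idm_self A
  π_ne := rep_idm_ne A
  span_col j := span_col A _ _
  span_row j := span_row A _ _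
  loc r hr := by
    have h1 : IsUnit (Matrix.scalar Unit r) := by
      refine loc_big A _ fun j => ?_
      have : big A (A.f j) Unit (Matrix.scalar Unit r) =
          Matrix.compRingEquiv Unit _ _ (Matrix.scalar Unit (rep A (A.f j) r)) := rfl
      rw [this]
      exact ((hr j).map _).map _
    obtain ⟨u, hu⟩ := h1
    have e1 := congrFun (congrFun u.mul_inv ()) ()
    have e2 := congrFun (congrFun u.inv_mul ()) ()
    rw [hu, Matrix.mul_apply, Fintype.sum_unique] at e1 e2
    exact ⟨⟨r, (u⁻¹ : (Matrix Unit Unit (RR A))ˣ).1 () (), e1, e2⟩, rfl⟩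

/-- The semiperfect data of the matrix rings. -/
noncomputable def dataM (m : Type) [Fintype m] [DecidableEq m] (m0 : m) :
    Data (Matrix m m (RR A)) (KK A) (Fin A.n) (fun j => m × Ix A (A.f j)) where
  π j := big A (A.f j) m
  v j := (m0, vv A j)
  ε j := Matrix.single m0 m0 (idm A (A.a j))
  ε_idem j := by rw [Matrix.single_mul_single_same, idm_idem]
  π_self j := by
    ext ⟨a, p⟩ ⟨b, q⟩
    rw [big_apply, Matrix.single_apply, Matrix.single_apply]
    by_cases h : m0 = a ∧ m0 = b
    · rw [if_pos h, ← rep_apply, rep_idm_self, Matrix.single_apply]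
      obtain ⟨rfl, rfl⟩ := h
      simp
    · rw [if_neg h, if_neg]
      · rfl
      · rintro ⟨h1, h2⟩
        exact h ⟨congrArg Prod.fst h1, congrArg Prod.fst h2⟩
  π_ne j j' hj := by
    ext ⟨a, p⟩ ⟨b, q⟩
    rw [big_apply, Matrix.single_apply]
    split_ifs
    · rw [← rep_apply, rep_idm_ne A j j' hj]; rfl
    · rfl
  span_col j w h := by
    ext ⟨a, p⟩
    refine congrFun (span_col A _ (vv A j) (fun p => w (a, p)) fun r => ?_) p
    have := h (Matrix.single a m0 r)
    rw [Fintype.sum_prod_type, Finset.sum_eq_single a] at this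
    · refine Eq.trans (Finset.sum_congr rfl fun b _ => ?_) this
      rw [big_apply, Matrix.single_apply_same, rep_apply]
    · intro b _ hb
      refine Finset.sum_eq_zero fun c _ => ?_
      rw [big_apply, Matrix.single_apply_of_row_ne hb.symm]
      exact mul_zero _
    · intro hh
      exact absurd (Finset.mem_univ a) hh
  span_row j w h := by
    ext ⟨a, p⟩
    refine congrFun (span_row A _ (vv A j) (fun p => w (a, p)) fun r => ?_) p
    have := h (Matrix.single m0 a r)
    rw [Fintype.sum_prod_type, Finset.sum_eq_single a] at this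
    · refine Eq.trans (Finset.sum_congr rfl fun b _ => ?_) this
      rw [big_apply, Matrix.single_apply_same, rep_apply]
    · intro b _ hb
      refine Finset.sum_eq_zero fun c _ => ?_
      rw [big_apply, Matrix.single_apply_of_col_ne _ _ hb.symm]
      exact zero_mul _
    · intro hh
      exact absurd (Finset.mem_univ a) hh
  loc α hα := loc_big A α hα

end Pool.Agent.H663Z.Exch
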